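import Mathlib

/-! Triples of elements of a finite commutative group up to permutation and scaling, and the
count of the sets of such classes that have few / many intersection properties. -/

set_option autoImplicit false

namespace Pool.Agent.R661

open Finset

section Orb
variable {Γ : Type} [CommGroup Γ]

/-- Triples up to permutation and scaling. -/
def tripSetoid (Γ : Type) [CommGroup Γ] : Setoid (Fin 3 → Γ) where
  r v w := ∃ (σ : Equiv.Perm (Fin 3)) (g : Γ), ∀ i, w i = g * v (σ i)
  iseqv := {
    refl := fun v => ⟨1, 1, fun i => by simp⟩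
    symm := by
      rintro v w ⟨σ, g, h⟩
      refine ⟨σ⁻¹, g⁻¹, fun i => ?_⟩
      rw [h (σ⁻¹ i)]; simp
    trans := by
      rintro u v w ⟨σ, g, h⟩ ⟨τ, k, h'⟩
      refine ⟨σ * τ, k * g, fun i => ?_⟩
      rw [h', h]; simp [mul_assoc] }

/-- The type of classes of triples. -/
def Trip (Γ : Type) [CommGroup Γ] : Type := Quotient (tripSetoid Γ)

/-- The class of a triple. -/
def mk3 (x y z : Γ) : Trip Γ := Quotient.mk (tripSetoid Γ) ![x, y, z]

theorem mk3_eq_iff {x y z x' y' z' : Γ} : mk3 x y z = mk3 x' y' z' ↔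
    ∃ (σ : Equiv.Perm (Fin 3)) (g : Γ), ∀ i, ![x', y', z'] i = g * ![x, y, z] (σ i) := by
  constructor
  · intro h
    exact Quotient.exact h
  · intro h
    exact Quotient.sound h

theorem exists_mk3 (q : Trip Γ) : ∃ x y z, q = mk3 x y z := by
  obtain ⟨v, rfl⟩ := Quotient.exists_rep q
  refine ⟨v 0, v 1, v 2, ?_⟩
  unfold mk3
  congr 1
  ext i
  fin_cases i <;> rfl

theorem mk3_swap12 (x y z : Γ) : mk3 x y z = mk3 y x z := by
  rw [mk3_eq_iff]
  refine ⟨Equiv.swap 0 1, 1, fun i => ?_⟩
  fin_cases i <;> simp [Equiv.swap_apply_def]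

theorem mk3_swap23 (x y z : Γ) : mk3 x y z = mk3 x z y := by
  rw [mk3_eq_iff]
  refine ⟨Equiv.swap 1 2, 1, fun i => ?_⟩
  fin_cases i <;> simp [Equiv.swap_apply_def]

theorem mk3_smul (g x y z : Γ) : mk3 (g * x) (g * y) (g * z) = mk3 x y z := by
  symm
  rw [mk3_eq_iff]
  refine ⟨1, g, fun i => ?_⟩
  fin_cases i <;> simp

instance [Finite Γ] : Finite (Trip Γ) := by
  unfold Trip; infer_instance

noncomputable instance [Finite Γ] : Fintype (Trip Γ) := Fintype.ofFinite _

open Classical in
/-- Every class meets every line in at most six points. -/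
theorem card_line_le [Fintype Γ] (x y : Γ) (q : Trip Γ) :
    (univ.filter (fun u : Γ => mk3 x y u = q)).card ≤ 6 := by
  obtain ⟨v, rfl⟩ := Quotient.exists_rep q
  have hsub : (univ.filter (fun u : Γ => mk3 x y u = Quotient.mk (tripSetoid Γ) v)) ⊆
      (univ : Finset (Equiv.Perm (Fin 3))).image (fun σ => x * (v (σ 0))⁻¹ * v (σ 2)) := by
    intro u hu
    simp only [mem_filter, mem_univ, true_and] at hu
    have hu' : Quotient.mk (tripSetoid Γ) v = Quotient.mk (tripSetoid Γ) ![x, y, u] := hu.symm
    rw [Quotient.eq] at hu'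
    obtain ⟨σ, g, h⟩ := hu'
    simp only [mem_image, mem_univ, true_and]
    refine ⟨σ, ?_⟩
    have h0 := h 0
    have h2 := h 2
    simp at h0 h2
    rw [h0, h2]
    group
  calc _ ≤ _ := card_le_card hsub
    _ ≤ (univ : Finset (Equiv.Perm (Fin 3))).card := card_image_le
    _ = 6 := by
      rw [card_univ, Fintype.card_perm]; rfl

end Orb

/-- A greedy independent set. -/
theorem exists_indep {α : Type} [Fintype α] (R : α → α → Prop) (hR : ∀ a b, R a b → R b a)
    (hrefl : ∀ a, R a a)
    (D : ℕ) (hD : ∀ a, Nat.card {b // R a b} ≤ D) :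
    ∃ I : Finset α, (∀ a ∈ I, ∀ b ∈ I, a ≠ b → ¬ R a b) ∧ Fintype.card α ≤ D * I.card := by
  classical
  -- a maximal independent set
  obtain ⟨I, hI, hmax⟩ := Finset.exists_max_image
    (univ.filter (fun I : Finset α => ∀ a ∈ I, ∀ b ∈ I, a ≠ b → ¬ R a b)) (fun I => I.card)
    ⟨∅, by simp⟩
  simp only [mem_filter, mem_univ, true_and] at hI hmax
  refine ⟨I, hI, ?_⟩
  have hcov : (univ : Finset α) ⊆ I.biUnion (fun a => univ.filter (fun b => R a b)) := by
    intro c _
    simp only [mem_biUnion, mem_filter, mem_univ, true_and]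
    by_contra hc
    push Not at hc
    have hcI : c ∉ I := fun h => hc c h (hrefl c)
    have := hmax (insert c I) (by
      intro a ha b hb hab
      rw [mem_insert] at ha hb
      rcases ha with rfl | ha
      · rcases hb with rfl | hb
        · exact absurd rfl hab
        · exact fun h => hc b hb (hR _ _ h)
      · rcases hb with rfl | hb
        · exact hc a ha
        · exact hI a ha b hb hab)
    rw [card_insert_of_notMem hcI] at this
    omega
  calc Fintype.card α = (univ : Finset α).card := card_univ.symm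
    _ ≤ _ := card_le_card hcov
    _ ≤ ∑ a ∈ I, (univ.filter (fun b => R a b)).card := card_biUnion_le
    _ ≤ ∑ a ∈ I, D := by
      apply sum_le_sum
      intro a _
      have := hD a
      rwa [Nat.card_eq_fintype_card, Fintype.card_subtype] at this
    _ = D * I.card := by rw [sum_const, smul_eq_mul, mul_comm]

open Classical in
/-- Sets avoiding `k` independent pairs: at most a fraction `(3/4)^k`. -/
theorem card_avoid {Q ι : Type} [Fintype Q] (I : Finset ι) (a b : ι → Q)
    (hI : ∀ u ∈ I, ∀ v ∈ I, u ≠ v → a u ≠ a v ∧ a u ≠ b v ∧ b u ≠ b v) :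
    4 ^ I.card * (univ.filter (fun S : Finset Q => ∀ u ∈ I, ¬ (a u ∈ S ∧ b u ∈ S))).card
      ≤ 3 ^ I.card * 2 ^ (Fintype.card Q) := by
  induction I using Finset.induction_on with
  | empty =>
    simp
  | insert u I hu ih =>
    have ih' := ih (fun v hv w hw => hI v (mem_insert_of_mem hv) w (mem_insert_of_mem hw))
    set B := univ.filter (fun S : Finset Q => ∀ u ∈ I, ¬ (a u ∈ S ∧ b u ∈ S)) with hB
    set B' := univ.filter (fun S : Finset Q => ∀ v ∈ insert u I, ¬ (a v ∈ S ∧ b v ∈ S)) with hB'
    set W := B.filter (fun S => a u ∈ S ∧ b u ∈ S) with hW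
    have hBW : B'.card + W.card = B.card := by
      rw [← Finset.card_filter_add_card_filter_not (s := B) (fun S => a u ∈ S ∧ b u ∈ S), add_comm]
      congr 1
      congr 1
      ext S
      simp only [hB', hB, mem_filter, mem_univ, true_and, mem_insert, forall_eq_or_imp]
      tauto
    have h4 : B.card ≤ 4 * W.card := by
      have : B.card ≤ (W ×ˢ (univ : Finset (Bool × Bool))).card := by
        apply Finset.card_le_card_of_injOn
          (fun S => (insert (a u) (insert (b u) S), (decide (a u ∈ S), decide (b u ∈ S))))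
        · intro S hS
          simp only [hB, coe_filter, mem_univ, true_and, Set.mem_ofPred_eq] at hS
          simp only [coe_product, Set.mem_prod, coe_univ, Set.mem_univ, and_true, hW, hB,
            coe_filter, mem_filter, mem_univ, true_and, Set.mem_ofPred_eq]
          refine ⟨?_, by simp⟩
          intro v hv
          have hvu : u ≠ v := by rintro rfl; exact hu hv
          obtain ⟨h1, h2, h3⟩ := hI u (mem_insert_self _ _) v (mem_insert_of_mem hv) hvu
          obtain ⟨h1', h2', h3'⟩ := hI v (mem_insert_of_mem hv) u (mem_insert_self _ _) hvu.symm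
          simp only [mem_insert]
          rintro ⟨h, h'⟩
          apply hS v hv
          constructor
          · rcases h with h | h | h
            · exact absurd h h1'
            · exact absurd h h2'
            · exact h
          · rcases h' with h | h | h
            · exact absurd h.symm h2
            · exact absurd h h3'
            · exact h
        · intro S _ T _ hST
          simp only [Prod.mk.injEq, decide_eq_decide] at hST
          obtain ⟨h1, h2, h3⟩ := hST
          ext c
          by_cases hca : c = a u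
          · rw [hca]; exact h2
          by_cases hcb : c = b u
          · rw [hcb]; exact h3
          have := Finset.ext_iff.1 h1 c
          simpa [hca, hcb] using this
      rw [card_product] at this
      simpa [mul_comm] using this
    rw [card_insert_of_notMem hu, pow_succ, pow_succ]
    have : 4 * B'.card ≤ 3 * B.card := by omega
    calc 4 ^ I.card * 4 * B'.card = 4 ^ I.card * (4 * B'.card) := by ring
      _ ≤ 4 ^ I.card * (3 * B.card) := Nat.mul_le_mul_left _ this
      _ = 3 * (4 ^ I.card * B.card) := by ring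
      _ ≤ 3 * (3 ^ I.card * 2 ^ (Fintype.card Q)) := Nat.mul_le_mul_left _ ih'
      _ = 3 ^ I.card * 3 * 2 ^ (Fintype.card Q) := by ring

open Classical in
/-- Sets containing a given set `D`. -/
theorem card_contain {Q : Type} [Fintype Q] (D : Finset Q) :
    2 ^ D.card * (univ.filter (fun S : Finset Q => D ⊆ S)).card ≤ 2 ^ (Fintype.card Q) := by
  have : D.powerset.card * (univ.filter (fun S : Finset Q => D ⊆ S)).card ≤
      (univ : Finset (Finset Q)).card := by
    rw [← card_product]
    apply Finset.card_le_card_of_injOn (fun p => p.2 \ p.1)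
    · intro p _; simp
    · rintro ⟨T, S⟩ h ⟨T', S'⟩ h' heq
      simp only [coe_product, Set.mem_prod, mem_coe, mem_powerset, mem_filter, mem_univ,
        true_and] at h h'
      simp only at heq
      obtain ⟨hT, hS⟩ := h
      obtain ⟨hT', hS'⟩ := h'
      have e1 : T = T' := by
        ext c
        have := Finset.ext_iff.1 heq c
        simp only [mem_sdiff] at this
        constructor
        · intro hc
          by_contra hc'
          have hcD := hT hc
          have := this.2 ⟨hS' hcD, hc'⟩
          exact this.2 hc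
        · intro hc
          by_contra hc'
          have hcD := hT' hc
          have := this.1 ⟨hS hcD, hc'⟩
          exact this.2 hc
      subst e1
      refine Prod.ext rfl ?_
      simp only
      ext c
      have := Finset.ext_iff.1 heq c
      simp only [mem_sdiff] at this
      by_cases hcT : c ∈ T
      · exact ⟨fun _ => hS' (hT hcT), fun _ => hS (hT hcT)⟩
      · simpa [hcT] using this
  rw [card_powerset] at this
  simpa using this

section Count
variable {Γ : Type} [CommGroup Γ] [Fintype Γ]

/-- Any two lines meet. -/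
def Good (S : Finset (Trip Γ)) : Prop :=
  ∀ x y z w : Γ, ∃ u : Γ, mk3 x y u ∈ S ∧ mk3 z w u ∈ S

theorem exists_fam (x y z w : Γ) : ∃ I : Finset Γ, Fintype.card Γ ≤ 24 * I.card ∧
    ∀ u ∈ I, ∀ v ∈ I, u ≠ v → mk3 x y u ≠ mk3 x y v ∧ mk3 x y u ≠ mk3 z w v ∧
      mk3 z w u ≠ mk3 z w v := by
  classical
  obtain ⟨I, hI, hc⟩ := exists_indep (α := Γ)
    (fun u v => mk3 x y u = mk3 x y v ∨ mk3 x y u = mk3 z w v ∨ mk3 z w u = mk3 x y v ∨
      mk3 z w u = mk3 z w v)
    (fun u v h => by
      rcases h with h | h | h | h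
      · exact Or.inl h.symm
      · exact Or.inr (Or.inr (Or.inl h.symm))
      · exact Or.inr (Or.inl h.symm)
      · exact Or.inr (Or.inr (Or.inr h.symm)))
    (fun u => Or.inl rfl) 24 (by
      intro u
      rw [Nat.card_eq_fintype_card, Fintype.card_subtype]
      have hsub : (univ.filter (fun v : Γ => mk3 x y u = mk3 x y v ∨ mk3 x y u = mk3 z w v ∨
          mk3 z w u = mk3 x y v ∨ mk3 z w u = mk3 z w v)) ⊆
          (univ.filter (fun v : Γ => mk3 x y v = mk3 x y u) ∪
            univ.filter (fun v : Γ => mk3 z w v = mk3 x y u)) ∪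
          (univ.filter (fun v : Γ => mk3 x y v = mk3 z w u) ∪
            univ.filter (fun v : Γ => mk3 z w v = mk3 z w u)) := by
        intro v hv
        simp only [mem_filter, mem_univ, true_and, mem_union] at hv ⊢
        rcases hv with h | h | h | h
        · exact Or.inl (Or.inl h.symm)
        · exact Or.inl (Or.inr h.symm)
        · exact Or.inr (Or.inl h.symm)
        · exact Or.inr (Or.inr h.symm)
      refine (card_le_card hsub).trans ?_
      refine (card_union_le _ _).trans ?_
      have h1 := card_union_le (univ.filter (fun v : Γ => mk3 x y v = mk3 x y u))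
        (univ.filter (fun v : Γ => mk3 z w v = mk3 x y u))
      have h2 := card_union_le (univ.filter (fun v : Γ => mk3 x y v = mk3 z w u))
        (univ.filter (fun v : Γ => mk3 z w v = mk3 z w u))
      have a1 := card_line_le x y (mk3 x y u)
      have a2 := card_line_le z w (mk3 x y u)
      have a3 := card_line_le x y (mk3 z w u)
      have a4 := card_line_le z w (mk3 z w u)
      omega)
  refine ⟨I, hc, fun u hu v hv huv => ?_⟩
  have := hI u hu v hv huv
  push Not at this
  exact ⟨this.1, this.2.1, this.2.2.2⟩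

open Classical in
theorem good_half
    (hr : ((Fintype.card Γ : ℕ) : ℝ) ^ 4 * (3 / 4 : ℝ) ^ (Fintype.card Γ / 24) ≤ 1 / 2) :
    2 ^ (Fintype.card (Trip Γ)) ≤
      2 * (univ.filter (fun S : Finset (Trip Γ) => Good S)).card := by
  set r := Fintype.card Γ with hrdef
  set N := Fintype.card (Trip Γ) with hN
  set bad := univ.filter (fun S : Finset (Trip Γ) => ¬ Good S) with hbad
  have hsum : (univ.filter (fun S : Finset (Trip Γ) => Good S)).card + bad.card = 2 ^ N := by
    rw [hbad, Finset.card_filter_add_card_filter_not, card_univ, Fintype.card_finset]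
  choose I hI1 hI2 using (exists_fam (Γ := Γ))
  have hcov : bad ⊆ (univ : Finset (Γ × Γ × Γ × Γ)).biUnion (fun p =>
      univ.filter (fun S : Finset (Trip Γ) => ∀ u ∈ I p.1 p.2.1 p.2.2.1 p.2.2.2,
        ¬ (mk3 p.1 p.2.1 u ∈ S ∧ mk3 p.2.2.1 p.2.2.2 u ∈ S))) := by
    intro S hS
    have hS' : ¬ Good S := (mem_filter.1 hS).2
    unfold Good at hS'
    push Not at hS'
    obtain ⟨x, y, z, w, h⟩ := hS'
    simp only [mem_biUnion, mem_univ, true_and, mem_filter]
    refine ⟨(x, y, z, w), fun u _ => ?_⟩
    rintro ⟨h1, h2⟩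
    exact h u h1 h2
  have hb : (bad.card : ℝ) ≤ (r : ℝ) ^ 4 * (3 / 4 : ℝ) ^ (r / 24) * 2 ^ N := by
    have h1 : bad.card ≤ ∑ p : Γ × Γ × Γ × Γ,
      (univ.filter (fun S : Finset (Trip Γ) => ∀ u ∈ I p.1 p.2.1 p.2.2.1 p.2.2.2,
        ¬ (mk3 p.1 p.2.1 u ∈ S ∧ mk3 p.2.2.1 p.2.2.2 u ∈ S))).card :=
      (card_le_card hcov).trans card_biUnion_le
    have h2 : ∀ p : Γ × Γ × Γ × Γ,
      ((univ.filter (fun S : Finset (Trip Γ) => ∀ u ∈ I p.1 p.2.1 p.2.2.1 p.2.2.2,
        ¬ (mk3 p.1 p.2.1 u ∈ S ∧ mk3 p.2.2.1 p.2.2.2 u ∈ S))).card : ℝ) ≤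
        (3 / 4 : ℝ) ^ (r / 24) * 2 ^ N := by
      intro p
      set k := (I p.1 p.2.1 p.2.2.1 p.2.2.2).card with hk
      have hk1 : r / 24 ≤ k := by
        have := hI1 p.1 p.2.1 p.2.2.1 p.2.2.2
        omega
      have := card_avoid (I p.1 p.2.1 p.2.2.1 p.2.2.2) (fun u => mk3 p.1 p.2.1 u)
        (fun u => mk3 p.2.2.1 p.2.2.2 u) (hI2 p.1 p.2.1 p.2.2.1 p.2.2.2)
      have h3 : (4 : ℝ) ^ k * ((univ.filter (fun S : Finset (Trip Γ) =>
        ∀ u ∈ I p.1 p.2.1 p.2.2.1 p.2.2.2,
        ¬ (mk3 p.1 p.2.1 u ∈ S ∧ mk3 p.2.2.1 p.2.2.2 u ∈ S))).card : ℝ) ≤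
          (3 : ℝ) ^ k * 2 ^ N := by
        rw [← hk, ← hN] at this
        norm_cast
        convert this
      have h4 : ((univ.filter (fun S : Finset (Trip Γ) =>
        ∀ u ∈ I p.1 p.2.1 p.2.2.1 p.2.2.2,
        ¬ (mk3 p.1 p.2.1 u ∈ S ∧ mk3 p.2.2.1 p.2.2.2 u ∈ S))).card : ℝ) ≤
          (3 / 4 : ℝ) ^ k * 2 ^ N := by
        rw [div_pow, div_mul_eq_mul_div, le_div_iff₀ (by positivity), mul_comm]
        exact h3
      refine h4.trans ?_
      apply mul_le_mul_of_nonneg_right _ (by positivity)
      exact pow_le_pow_of_le_one (by norm_num) (by norm_num) hk1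
    calc (bad.card : ℝ) ≤ ∑ p : Γ × Γ × Γ × Γ,
      ((univ.filter (fun S : Finset (Trip Γ) => ∀ u ∈ I p.1 p.2.1 p.2.2.1 p.2.2.2,
        ¬ (mk3 p.1 p.2.1 u ∈ S ∧ mk3 p.2.2.1 p.2.2.2 u ∈ S))).card : ℝ) := by
          exact_mod_cast h1
      _ ≤ ∑ p : Γ × Γ × Γ × Γ, (3 / 4 : ℝ) ^ (r / 24) * 2 ^ N := sum_le_sum (fun p _ => h2 p)
      _ = _ := by
        rw [sum_const, card_univ, Fintype.card_prod, Fintype.card_prod, Fintype.card_prod,
          ← hrdef]
        simp only [nsmul_eq_mul]
        push_cast
        ring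
  have hb2 : (bad.card : ℝ) ≤ 1 / 2 * 2 ^ N := by
    refine hb.trans ?_
    exact mul_le_mul_of_nonneg_right hr (by positivity)
  have hb3 : (2 : ℝ) * bad.card ≤ 2 ^ N := by linarith
  have hb4 : 2 * bad.card ≤ 2 ^ N := by exact_mod_cast hb3
  omega

open Classical in
theorem card_div_six_le (e : Γ) :
    Fintype.card Γ / 6 ≤ ((univ : Finset Γ).image (fun z => mk3 1 e z)).card := by
  have : (univ : Finset Γ).card ≤ 6 * ((univ : Finset Γ).image (fun z => mk3 1 e z)).card := by
    apply card_le_mul_card_image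
    intro q _
    exact card_line_le 1 e q
  rw [card_univ] at this
  omega

theorem two_pow_le_trip : 2 ^ (Fintype.card Γ / 6) ≤ 2 ^ (Fintype.card (Trip Γ)) := by
  classical
  apply Nat.pow_le_pow_right (by norm_num)
  exact (card_div_six_le (1 : Γ)).trans (card_le_univ _)

open Classical in
theorem card_full (e : Γ) :
    2 ^ (Fintype.card Γ / 6) *
      (univ.filter (fun S : Finset (Trip Γ) => ∀ z, mk3 1 e z ∈ S)).card ≤
      2 ^ (Fintype.card (Trip Γ)) := by
  have h := card_contain ((univ : Finset Γ).image (fun z => mk3 1 e z))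
  have heq : (univ.filter (fun S : Finset (Trip Γ) =>
      (univ : Finset Γ).image (fun z => mk3 1 e z) ⊆ S)) =
      (univ.filter (fun S : Finset (Trip Γ) => ∀ z, mk3 1 e z ∈ S)) := by
    ext S
    simp [Finset.subset_iff]
  rw [heq] at h
  refine le_trans (Nat.mul_le_mul_right _ ?_) h
  exact Nat.pow_le_pow_right (by norm_num) (card_div_six_le e)

end Count

end Pool.Agent.R661
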