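import Mathlib
import Pool.Agent.R661.HFOrb

/-! The hyperfield attached to a set of classes of triples. -/

set_option autoImplicit false

namespace Pool.Agent.R661

/-- Multiplication tables with addition tables. -/
abbrev XX (r : ℕ) : Type := (Fin (r+1) → Fin (r+1) → Fin (r+1)) × (Fin (r+1) → Fin (r+1) → Set (Fin (r+1)))

/-- The hyperfield axioms. -/
def HF {r : ℕ} (p : XX r) : Prop :=
  (∃ u : Fin (r+1), u ≠ 0 ∧ ∀ a, p.1 u a = a) ∧
                (∀ a b, p.1 a b = p.1 b a) ∧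
                (∀ a b c, p.1 (p.1 a b) c = p.1 a (p.1 b c)) ∧
                (∀ a, p.1 0 a = 0) ∧
                (∀ a b, a ≠ 0 → b ≠ 0 → p.1 a b ≠ 0) ∧
                (∀ a, a ≠ 0 → ∃ b, ∀ c, p.1 (p.1 a b) c = c) ∧
                (∀ a b, (p.2 a b).Nonempty) ∧
                (∀ a b, p.2 a b = p.2 b a) ∧
                (∀ a b c, (⋃ x ∈ p.2 a b, p.2 x c) = ⋃ x ∈ p.2 b c, p.2 a x) ∧
                (∀ a, p.2 0 a = {a}) ∧
                (∀ a, ∃! b, (0 : Fin (r+1)) ∈ p.2 a b) ∧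
                (∀ a b c d, a ∈ p.2 b c → (0 : Fin (r+1)) ∈ p.2 b d → c ∈ p.2 a d) ∧
                (∀ a b c, (fun x => p.1 a x) '' p.2 b c = p.2 (p.1 a b) (p.1 a c))

/-- The group `Γ` is the group of nonzero elements of the table `m`. -/
structure Emb (r : ℕ) (Γ : Type) [CommGroup Γ] (ι : Γ → Fin (r+1))
    (m : Fin (r+1) → Fin (r+1) → Fin (r+1)) : Prop where
  inj : Function.Injective ι
  ne : ∀ g, ι g ≠ 0
  surj : ∀ a, a ≠ 0 → ∃ g, ι g = a
  mul : ∀ g h, m (ι g) (ι h) = ι (g * h)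
  zl : ∀ a, m 0 a = 0
  zr : ∀ a, m a 0 = 0

namespace Emb
variable {r : ℕ} {Γ : Type} [CommGroup Γ] {ι : Γ → Fin (r+1)}
    {m : Fin (r+1) → Fin (r+1) → Fin (r+1)}

theorem cases (E : Emb r Γ ι m) (a : Fin (r+1)) : a = 0 ∨ ∃ g, a = ι g := by
  by_cases h : a = 0
  · exact Or.inl h
  · obtain ⟨g, hg⟩ := E.surj a h
    exact Or.inr ⟨g, hg.symm⟩

theorem card (E : Emb r Γ ι m) [Fintype Γ] : Fintype.card Γ = r := by
  have : Fintype.card Γ = Fintype.card {a : Fin (r+1) // a ≠ 0} := by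
    apply Fintype.card_of_bijective (f := fun g => (⟨ι g, E.ne g⟩ : {a : Fin (r+1) // a ≠ 0}))
    constructor
    · intro g h hgh
      exact E.inj (Subtype.ext_iff.1 hgh)
    · rintro ⟨a, ha⟩
      obtain ⟨g, hg⟩ := E.surj a ha
      exact ⟨g, Subtype.ext hg⟩
  rw [this]
  simp [Fintype.card_subtype_compl]

end Emb

/-- The addition attached to a set of classes. -/
def addOf {r : ℕ} {Γ : Type} [CommGroup Γ] (ι : Γ → Fin (r+1)) (S : Finset (Trip Γ)) :
    Fin (r+1) → Fin (r+1) → Set (Fin (r+1)) := fun a b =>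
  {c | (a = 0 ∧ c = b) ∨ (b = 0 ∧ c = a) ∨
    ∃ x y, a = ι x ∧ b = ι y ∧ ((c = 0 ∧ x = y) ∨ ∃ z, c = ι z ∧ mk3 x y z ∈ S)}

section
variable {r : ℕ} {Γ : Type} [CommGroup Γ] {ι : Γ → Fin (r+1)}
    {m : Fin (r+1) → Fin (r+1) → Fin (r+1)} (E : Emb r Γ ι m) (S : Finset (Trip Γ))
include E

theorem mem_addOf_zl (b c : Fin (r+1)) : c ∈ addOf ι S 0 b ↔ c = b := by
  constructor
  · rintro (⟨-, h⟩ | ⟨h, h'⟩ | ⟨x, y, h, -⟩)
    · exact h
    · rw [h, h']
    · exact absurd h.symm (E.ne x)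
  · rintro rfl
    exact Or.inl ⟨rfl, rfl⟩

theorem mem_addOf_zr (a c : Fin (r+1)) : c ∈ addOf ι S a 0 ↔ c = a := by
  constructor
  · rintro (⟨h, h'⟩ | ⟨-, h⟩ | ⟨x, y, -, h, -⟩)
    · rw [h, h']
    · exact h
    · exact absurd h.symm (E.ne y)
  · rintro rfl
    exact Or.inr (Or.inl ⟨rfl, rfl⟩)

theorem zero_mem_addOf (x y : Γ) : (0 : Fin (r+1)) ∈ addOf ι S (ι x) (ι y) ↔ x = y := by
  constructor
  · rintro (⟨h, -⟩ | ⟨h, -⟩ | ⟨x', y', hx, hy, h⟩)
    · exact absurd h (E.ne x)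
    · exact absurd h (E.ne y)
    · rw [E.inj hx, E.inj hy]
      rcases h with h | ⟨z, hz, -⟩
      · exact h.2
      · exact absurd hz.symm (E.ne z)
  · rintro rfl
    exact Or.inr (Or.inr ⟨x, x, rfl, rfl, Or.inl ⟨rfl, rfl⟩⟩)

theorem mem_addOf (x y z : Γ) : ι z ∈ addOf ι S (ι x) (ι y) ↔ mk3 x y z ∈ S := by
  constructor
  · rintro (⟨h, -⟩ | ⟨h, -⟩ | ⟨x', y', hx, hy, h⟩)
    · exact absurd h (E.ne x)
    · exact absurd h (E.ne y)
    · rw [E.inj hx, E.inj hy]
      rcases h with h | ⟨z', hz, h⟩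
      · exact absurd h.1 (E.ne z)
      · rw [E.inj hz]; exact h
  · intro h
    exact Or.inr (Or.inr ⟨x, y, rfl, rfl, Or.inr ⟨z, rfl, h⟩⟩)

theorem addOf_comm (a b : Fin (r+1)) : addOf ι S a b = addOf ι S b a := by
  ext c
  rcases E.cases a with rfl | ⟨x, rfl⟩
  · rw [mem_addOf_zl E, mem_addOf_zr E]
  rcases E.cases b with rfl | ⟨y, rfl⟩
  · rw [mem_addOf_zl E, mem_addOf_zr E]
  rcases E.cases c with rfl | ⟨z, rfl⟩
  · rw [zero_mem_addOf E, zero_mem_addOf E, eq_comm]
  · rw [mem_addOf E, mem_addOf E, mk3_swap12]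

theorem addOf_injective : Function.Injective (addOf ι : Finset (Trip Γ) → _) := by
  intro S T h
  ext q
  obtain ⟨x, y, z, rfl⟩ := exists_mk3 q
  rw [← mem_addOf E, ← mem_addOf E, h]

theorem HF_addOf (hG : Good S) : HF (r := r) (m, addOf ι S) := by
  have hnb : ∀ x y : Γ, ∃ u : Γ, mk3 x y u ∈ S := fun x y => by
    obtain ⟨u, hu, -⟩ := hG x y x y
    exact ⟨u, hu⟩
  have key : ∀ (x y z : Γ) (c : Fin (r+1)), c ∈ (⋃ w ∈ addOf ι S (ι x) (ι y), addOf ι S w (ι z)) ↔
      (c ≠ 0 ∨ mk3 x y z ∈ S) := by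
    intro x y z c
    simp only [Set.mem_iUnion, exists_prop]
    rcases E.cases c with rfl | ⟨t, rfl⟩
    · simp only [ne_eq, not_true_eq_false, false_or]
      constructor
      · rintro ⟨w, hw, h⟩
        rcases E.cases w with rfl | ⟨s, rfl⟩
        · rw [mem_addOf_zl E] at h
          exact absurd h.symm (E.ne z)
        · rw [zero_mem_addOf E] at h
          rw [mem_addOf E, h] at hw
          exact hw
      · intro h
        exact ⟨ι z, (mem_addOf E S x y z).2 h, (zero_mem_addOf E S z z).2 rfl⟩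
    · simp only [ne_eq, E.ne t, not_false_eq_true, true_or, iff_true]
      obtain ⟨u, h1, h2⟩ := hG x y z t
      refine ⟨ι u, (mem_addOf E S x y u).2 h1, (mem_addOf E S u z t).2 ?_⟩
      rw [mk3_swap12, mk3_swap23]
      exact h2
  refine ⟨⟨ι 1, E.ne 1, ?_⟩, ?_, ?_, E.zl, ?_, ?_, ?_, addOf_comm E S, ?_, ?_, ?_, ?_, ?_⟩
  · intro a
    rcases E.cases a with rfl | ⟨x, rfl⟩
    · exact E.zr _
    · simp only
      rw [E.mul, one_mul]
  · intro a b
    rcases E.cases a with rfl | ⟨x, rfl⟩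
    · simp only [E.zl, E.zr]
    rcases E.cases b with rfl | ⟨y, rfl⟩
    · simp only [E.zl, E.zr]
    simp only [E.mul, mul_comm]
  · intro a b c
    rcases E.cases a with rfl | ⟨x, rfl⟩
    · simp only [E.zl]
    rcases E.cases b with rfl | ⟨y, rfl⟩
    · simp only [E.zl, E.zr]
    rcases E.cases c with rfl | ⟨z, rfl⟩
    · simp only [E.zr]
    simp only [E.mul, mul_assoc]
  · intro a b ha hb
    rcases E.cases a with rfl | ⟨x, rfl⟩
    · exact absurd rfl ha
    rcases E.cases b with rfl | ⟨y, rfl⟩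
    · exact absurd rfl hb
    simp only [E.mul]
    exact E.ne _
  · intro a ha
    rcases E.cases a with rfl | ⟨x, rfl⟩
    · exact absurd rfl ha
    refine ⟨ι x⁻¹, fun c => ?_⟩
    simp only [E.mul, mul_inv_cancel]
    rcases E.cases c with rfl | ⟨z, rfl⟩
    · exact E.zr _
    · rw [E.mul, one_mul]
  · intro a b
    rcases E.cases a with rfl | ⟨x, rfl⟩
    · exact ⟨b, (mem_addOf_zl E S b b).2 rfl⟩
    rcases E.cases b with rfl | ⟨y, rfl⟩
    · exact ⟨_, (mem_addOf_zr E S _ _).2 rfl⟩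
    obtain ⟨u, hu⟩ := hnb x y
    exact ⟨ι u, (mem_addOf E S x y u).2 hu⟩
  · intro a b c
    simp only
    rcases E.cases a with rfl | ⟨x, rfl⟩
    · ext d
      simp only [Set.mem_iUnion, exists_prop, mem_addOf_zl E, exists_eq_left]
      constructor
      · intro h; exact ⟨d, h, rfl⟩
      · rintro ⟨_, h, rfl⟩; exact h
    rcases E.cases b with rfl | ⟨y, rfl⟩
    · ext d
      simp only [Set.mem_iUnion, exists_prop, mem_addOf_zl E, mem_addOf_zr E, exists_eq_left]
    rcases E.cases c with rfl | ⟨z, rfl⟩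
    · ext d
      simp only [Set.mem_iUnion, exists_prop, mem_addOf_zr E, exists_eq_left]
      constructor
      · rintro ⟨_, h, rfl⟩; exact h
      · intro h; exact ⟨d, h, rfl⟩
    · ext d
      have h2 : (⋃ w ∈ addOf ι S (ι y) (ι z), addOf ι S (ι x) w) =
          ⋃ w ∈ addOf ι S (ι y) (ι z), addOf ι S w (ι x) :=
        Set.iUnion_congr fun w => by rw [addOf_comm E S (ι x) w]
      rw [h2, key, key]
      have : mk3 x y z = mk3 y z x := by rw [mk3_swap12, mk3_swap23]
      rw [this]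
  · intro a
    ext c
    rw [mem_addOf_zl E]; rfl
  · intro a
    rcases E.cases a with rfl | ⟨x, rfl⟩
    · refine ⟨0, (mem_addOf_zl E S 0 0).2 rfl, fun b hb => ?_⟩
      exact ((mem_addOf_zl E S b 0).1 hb).symm
    · refine ⟨ι x, (zero_mem_addOf E S x x).2 rfl, fun b hb => ?_⟩
      rcases E.cases b with rfl | ⟨y, rfl⟩
      · exact absurd ((mem_addOf_zr E S _ _).1 hb).symm (E.ne x)
      · rw [(zero_mem_addOf E S x y).1 hb]
  · intro a b c d
    simp only
    intro h h'
    rcases E.cases b with rfl | ⟨y, rfl⟩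
    · rw [mem_addOf_zl E] at h h'
      rw [← h', ← h, mem_addOf_zr E]
    have hd : d = ι y := by
      rcases E.cases d with rfl | ⟨w, rfl⟩
      · exact absurd ((mem_addOf_zr E S _ _).1 h').symm (E.ne y)
      · rw [(zero_mem_addOf E S _ _).1 h']
    subst hd
    rcases E.cases c with rfl | ⟨z, rfl⟩
    · rw [mem_addOf_zr E] at h
      rw [h, zero_mem_addOf E]
    rcases E.cases a with rfl | ⟨x, rfl⟩
    · rw [zero_mem_addOf E] at h
      rw [mem_addOf_zl E, h]
    rw [mem_addOf E] at h ⊢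
    have : mk3 x y z = mk3 y z x := by rw [mk3_swap12, mk3_swap23]
    rw [this]; exact h
  · intro a b c
    simp only
    rcases E.cases a with rfl | ⟨x, rfl⟩
    · ext d
      rw [E.zl, E.zl, mem_addOf_zl E]
      constructor
      · rintro ⟨w, -, hw⟩
        simp only [E.zl] at hw
        exact hw.symm
      · rintro rfl
        have hne : (addOf ι S b c).Nonempty := by
          rcases E.cases b with rfl | ⟨x, rfl⟩
          · exact ⟨c, (mem_addOf_zl E S c c).2 rfl⟩
          rcases E.cases c with rfl | ⟨y, rfl⟩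
          · exact ⟨_, (mem_addOf_zr E S _ _).2 rfl⟩
          obtain ⟨u, hu⟩ := hnb x y
          exact ⟨ι u, (mem_addOf E S x y u).2 hu⟩
        obtain ⟨w, hw⟩ := hne
        exact ⟨w, hw, E.zl w⟩
    · ext d
      constructor
      · rintro ⟨w, hw, rfl⟩
        simp only
        rcases E.cases b with rfl | ⟨y, rfl⟩
        · rw [mem_addOf_zl E] at hw
          rw [hw, E.zr, mem_addOf_zl E]
        rcases E.cases c with rfl | ⟨z, rfl⟩
        · rw [mem_addOf_zr E] at hw
          rw [hw, E.zr, mem_addOf_zr E]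
        rcases E.cases w with rfl | ⟨t, rfl⟩
        · rw [zero_mem_addOf E] at hw
          rw [E.zr, E.mul, E.mul, zero_mem_addOf E, hw]
        · rw [mem_addOf E] at hw
          rw [E.mul, E.mul, E.mul, mem_addOf E, mk3_smul]
          exact hw
      · intro h
        refine ⟨m (ι x⁻¹) d, ?_, ?_⟩
        · rcases E.cases b with rfl | ⟨y, rfl⟩
          · rw [E.zr, mem_addOf_zl E] at h
            rw [mem_addOf_zl E, h]
            rcases E.cases c with rfl | ⟨z, rfl⟩
            · rw [E.zr, E.zr]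
            · rw [E.mul, E.mul, inv_mul_cancel_left]
          rcases E.cases c with rfl | ⟨z, rfl⟩
          · rw [E.zr, mem_addOf_zr E] at h
            rw [mem_addOf_zr E, h, E.mul, E.mul, inv_mul_cancel_left]
          rcases E.cases d with rfl | ⟨t, rfl⟩
          · rw [E.mul, E.mul, zero_mem_addOf E] at h
            rw [E.zr, zero_mem_addOf E]
            exact mul_left_cancel h
          · rw [E.mul, E.mul, mem_addOf E] at h
            rw [E.mul, mem_addOf E]
            rw [← mk3_smul x y z]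
            rwa [mul_inv_cancel_left]
        · simp only
          rcases E.cases d with rfl | ⟨t, rfl⟩
          · rw [E.zr, E.zr]
          · rw [E.mul, E.mul, mul_inv_cancel_left]

end

end Pool.Agent.R661
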