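import Mathlib
import Pool.Agent.R661.HFAx

/-! Quotient hyperfields: reconstruction from a symmetric relation, and the case of infinite
fields, where every element is a difference of elements of the subgroup. -/

set_option autoImplicit false

namespace Pool.Agent.R661

/-- `p` is the quotient hyperfield `K / G` via the map `f`. -/
def QW {r : ℕ} (p : XX r) (K : Type) [Field K] (G : Subgroup Kˣ) (f : K → Fin (r+1)) : Prop :=
  Function.Surjective f ∧ f 0 = 0 ∧
    (∀ x y : K, f x = f y ↔ ∃ g ∈ G, y = x * (g : K)) ∧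
    (∀ x y : K, f (x * y) = p.1 (f x) (f y)) ∧
    (∀ x y : K, p.2 (f x) (f y) = {z | ∃ g ∈ G, ∃ h ∈ G, z = f (x * (g : K) + y * (h : K))})

/-- Every nonzero element is a difference of elements of the subgroup. -/
def GG (K : Type) [Field K] (G : Subgroup Kˣ) : Prop :=
  ∀ c : K, c ≠ 0 → ∃ g ∈ G, ∃ h ∈ G, c = (g : K) - (h : K)

namespace QW
variable {r : ℕ} {p : XX r} {K : Type} [Field K] {G : Subgroup Kˣ} {f : K → Fin (r+1)}

theorem eq_zero_iff (W : QW p K G f) (x : K) : f x = 0 ↔ x = 0 := by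
  obtain ⟨_, h0, h1, _, _⟩ := W
  constructor
  · intro h
    rw [← h0] at h
    obtain ⟨g, -, hg⟩ := (h1 x 0).1 h
    rcases mul_eq_zero.1 hg.symm with h | h
    · exact h
    · exact absurd h g.ne_zero
  · rintro rfl; exact h0

theorem one_le (W : QW p K G f) : 1 ≤ r := by
  by_contra h
  have h0 : r = 0 := by omega
  subst h0
  have : f 1 = 0 := by
    ext
    have := (f 1).2
    simp only [Fin.val_zero]
    omega
  exact one_ne_zero ((W.eq_zero_iff 1).1 this)

/-- The map on the group of cosets. -/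
noncomputable def iota (_ : QW p K G f) : (Kˣ ⧸ G) → Fin (r+1) :=
  fun q => f ((q.out : Kˣ) : K)

theorem iota_mk (W : QW p K G f) (u : Kˣ) : W.iota (u : Kˣ ⧸ G) = f (u : K) := by
  unfold iota
  obtain ⟨g, hg⟩ := QuotientGroup.mk_out_eq_mul G u
  rw [hg, eq_comm, W.2.2.1]
  exact ⟨g, g.2, by push_cast; rfl⟩

theorem emb (W : QW p K G f) : Emb r (Kˣ ⧸ G) W.iota p.1 where
  inj := by
    intro a b hab
    obtain ⟨u, rfl⟩ := QuotientGroup.mk_surjective a
    obtain ⟨v, rfl⟩ := QuotientGroup.mk_surjective b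
    rw [iota_mk, iota_mk, W.2.2.1] at hab
    obtain ⟨g, hg, h⟩ := hab
    rw [QuotientGroup.eq]
    have : v = u * g := by ext; push_cast; exact h
    rw [this, inv_mul_cancel_left]
    exact hg
  ne := by
    intro a h
    obtain ⟨u, rfl⟩ := QuotientGroup.mk_surjective a
    rw [iota_mk, W.eq_zero_iff] at h
    exact u.ne_zero h
  surj := by
    intro a ha
    obtain ⟨x, rfl⟩ := W.1 a
    have hx : x ≠ 0 := fun h => ha ((W.eq_zero_iff x).2 h)
    refine ⟨(Units.mk0 x hx : Kˣ), ?_⟩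
    rw [iota_mk]; rfl
  mul := by
    intro a b
    obtain ⟨u, rfl⟩ := QuotientGroup.mk_surjective a
    obtain ⟨v, rfl⟩ := QuotientGroup.mk_surjective b
    rw [← QuotientGroup.mk_mul, iota_mk, iota_mk, iota_mk, ← W.2.2.2.1]
    push_cast; rfl
  zl := by
    intro a
    obtain ⟨x, rfl⟩ := W.1 a
    rw [← W.2.1, ← W.2.2.2.1, zero_mul]
  zr := by
    intro a
    obtain ⟨x, rfl⟩ := W.1 a
    have := W.2.2.2.1 x 0
    rw [mul_zero, W.2.1] at this
    exact this.symm

end QW

/-- The addition with sign `e` attached to a set of classes. -/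
def addE {r : ℕ} {Γ : Type} [CommGroup Γ] (ι : Γ → Fin (r+1)) (e : Γ) (S : Finset (Trip Γ)) :
    Fin (r+1) → Fin (r+1) → Set (Fin (r+1)) := fun a b =>
  {c | (a = 0 ∧ c = b) ∨ (b = 0 ∧ c = a) ∨
    ∃ x y, a = ι x ∧ b = ι y ∧ ((c = 0 ∧ y = e * x) ∨ ∃ z, c = ι z ∧ mk3 x y (e * z) ∈ S)}

section
variable {r : ℕ} {Γ : Type} [CommGroup Γ] {ι : Γ → Fin (r+1)} {p : XX r}
  {K : Type} [Field K] {G : Subgroup Kˣ} {f : K → Fin (r+1)}

/-- Zero-sum triples. -/
def ZS (ι : Γ → Fin (r+1)) (f : K → Fin (r+1)) (v : Fin 3 → Γ) : Prop :=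
  ∃ w : Fin 3 → K, (∀ i, f (w i) = ι (v i)) ∧ ∑ i, w i = 0

theorem ZS_inv (E : Emb r Γ ι p.1) (W : QW p K G f) (v v' : Fin 3 → Γ)
    (h : ∃ (σ : Equiv.Perm (Fin 3)) (g : Γ), ∀ i, v' i = g * v (σ i)) (hv : ZS ι f v) :
    ZS ι f v' := by
  obtain ⟨σ, g, hg⟩ := h
  obtain ⟨w, hw, hs⟩ := hv
  obtain ⟨k, hk⟩ := W.1 (ι g)
  refine ⟨fun i => k * w (σ i), fun i => ?_, ?_⟩
  · rw [W.2.2.2.1, hk, hw, hg, E.mul]
  · rw [← Finset.mul_sum, Equiv.sum_comp σ w, hs, mul_zero]

open Classical in
/-- The classes of the zero-sum triples. -/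
noncomputable def zsSet [Fintype Γ] (ι : Γ → Fin (r+1)) (f : K → Fin (r+1)) : Finset (Trip Γ) :=
  Finset.univ.filter (fun q => ∃ v : Fin 3 → Γ, q = mk3 (v 0) (v 1) (v 2) ∧ ZS ι f v)

open Classical in
theorem mem_zsSet [Fintype Γ] (E : Emb r Γ ι p.1) (W : QW p K G f) (x y z : Γ) :
    mk3 x y z ∈ zsSet ι f ↔ ∃ a b c : K, f a = ι x ∧ f b = ι y ∧ f c = ι z ∧ a + b + c = 0 := by
  unfold zsSet
  rw [Finset.mem_filter]
  simp only [Finset.mem_univ, true_and]
  constructor
  · rintro ⟨v, hq, hv⟩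
    rw [eq_comm, mk3_eq_iff] at hq
    have hv' : ZS ι f ![v 0, v 1, v 2] := by
      have : ![v 0, v 1, v 2] = v := by ext i; fin_cases i <;> rfl
      rw [this]; exact hv
    obtain ⟨w, hw, hs⟩ := ZS_inv E W _ _ hq hv'
    refine ⟨w 0, w 1, w 2, hw 0, hw 1, hw 2, ?_⟩
    rw [← hs, Fin.sum_univ_three]
  · rintro ⟨a, b, c, ha, hb, hc, hs⟩
    refine ⟨![x, y, z], rfl, ![a, b, c], fun i => ?_, ?_⟩
    · fin_cases i
      · exact ha
      · exact hb
      · exact hc
    · rw [Fin.sum_univ_three]; exact hs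

/-- The addition of a quotient hyperfield is determined by a sign and a set of classes. -/
theorem quot_rep [Fintype Γ] (E : Emb r Γ ι p.1) (W : QW p K G f) (hGG : GG K G) :
    ∃ (e : Γ) (S : Finset (Trip Γ)), (∀ z, mk3 1 e z ∈ S) ∧ p.2 = addE ι e S := by
  obtain ⟨e, he⟩ := E.surj (f (-1)) (fun h => by
    rw [W.eq_zero_iff] at h
    exact one_ne_zero (neg_eq_zero.1 h))
  have hneg : ∀ x : K, f (-x) = p.1 (ι e) (f x) := fun x => by
    rw [he, ← W.2.2.2.1, neg_one_mul]
  have h1 : ι (1 : Γ) = f 1 := by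
    obtain ⟨x, hx⟩ := W.1 (ι 1)
    obtain ⟨y, hy⟩ := E.surj (f 1) (fun h => one_ne_zero ((W.eq_zero_iff 1).1 h))
    have h2 : ι (1 * y) = f (x * 1) := by
      rw [W.2.2.2.1, hx, ← E.mul, hy]
    rw [one_mul, mul_one, hx, hy] at h2
    exact h2.symm
  refine ⟨e, zsSet ι f, ?_, ?_⟩
  · intro z
    rw [mem_zsSet E W]
    obtain ⟨c, hc⟩ := W.1 (ι z)
    have hc0 : c ≠ 0 := fun h => E.ne z (by rw [← hc, W.eq_zero_iff]; exact h)
    obtain ⟨g, hg, h, hh, hgh⟩ := hGG (-c) (neg_ne_zero.2 hc0)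
    refine ⟨g, -h, c, ?_, ?_, hc, ?_⟩
    · rw [h1, eq_comm, W.2.2.1]
      exact ⟨g, hg, by rw [one_mul]⟩
    · rw [he, eq_comm, W.2.2.1]
      exact ⟨h, hh, by ring⟩
    · rw [← sub_eq_add_neg, ← hgh]; ring
  · ext a b c
    obtain ⟨x, rfl⟩ := W.1 a
    obtain ⟨y, rfl⟩ := W.1 b
    rw [W.2.2.2.2]
    constructor
    · rintro ⟨g, hg, h, hh, rfl⟩
      by_cases hx : x = 0
      · left
        refine ⟨by rw [hx, W.2.1], ?_⟩
        rw [hx, zero_mul, zero_add, eq_comm, W.2.2.1]
        exact ⟨h, hh, rfl⟩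
      by_cases hy : y = 0
      · right; left
        refine ⟨by rw [hy, W.2.1], ?_⟩
        rw [hy, zero_mul, add_zero, eq_comm, W.2.2.1]
        exact ⟨g, hg, rfl⟩
      right; right
      obtain ⟨x', hx'⟩ := E.surj (f x) (fun h => hx ((W.eq_zero_iff x).1 h))
      obtain ⟨y', hy'⟩ := E.surj (f y) (fun h => hy ((W.eq_zero_iff y).1 h))
      refine ⟨x', y', hx'.symm, hy'.symm, ?_⟩
      by_cases hs : x * (g : K) + y * (h : K) = 0
      · left
        refine ⟨by rw [hs, W.2.1], ?_⟩
        apply E.inj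
        rw [← E.mul, hx', hy', he, ← W.2.2.2.1, eq_comm, W.2.2.1]
        refine ⟨g * h⁻¹, G.mul_mem hg (G.inv_mem hh), ?_⟩
        have hh0 : (h : K) ≠ 0 := h.ne_zero
        push_cast
        field_simp
        linear_combination hs
      · right
        obtain ⟨z', hz'⟩ := E.surj (f (x * (g : K) + y * (h : K)))
          (fun h' => hs ((W.eq_zero_iff _).1 h'))
        refine ⟨z', hz'.symm, ?_⟩
        rw [mem_zsSet E W]
        refine ⟨x * g, y * h, -(x * (g : K) + y * (h : K)), ?_, ?_, ?_, ?_⟩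
        · rw [hx', eq_comm, W.2.2.1]; exact ⟨g, hg, rfl⟩
        · rw [hy', eq_comm, W.2.2.1]; exact ⟨h, hh, rfl⟩
        · rw [hneg, ← hz', E.mul]
        · ring
    · rintro (⟨h0, h⟩ | ⟨h0, h⟩ | ⟨x', y', hx', hy', h⟩)
      · rw [W.eq_zero_iff] at h0
        refine ⟨1, G.one_mem, 1, G.one_mem, ?_⟩
        rw [h, h0]; simp
      · rw [W.eq_zero_iff] at h0
        refine ⟨1, G.one_mem, 1, G.one_mem, ?_⟩
        rw [h, h0]; simp
      · rcases h with ⟨rfl, h⟩ | ⟨z', rfl, h⟩
        · have : f y = f (-x) := by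
            rw [hneg, hx', E.mul, hy', h]
          obtain ⟨g, hg, hgx⟩ := (W.2.2.1 _ _).1 this
          refine ⟨1, G.one_mem, g, hg, ?_⟩
          rw [← hgx]
          simp [W.2.1]
        · rw [mem_zsSet E W] at h
          obtain ⟨a, b, c, ha, hb, hc, hs⟩ := h
          rw [← hx', eq_comm, W.2.2.1] at ha
          rw [← hy', eq_comm, W.2.2.1] at hb
          obtain ⟨g, hg, rfl⟩ := ha
          obtain ⟨h, hh, rfl⟩ := hb
          obtain ⟨w, hw⟩ := W.1 (ι z')
          have h3 : f (-w) = f c := by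
            rw [hneg, hw, E.mul, hc]
          obtain ⟨k, hk, hck⟩ := (W.2.2.1 _ _).1 h3
          refine ⟨g * k⁻¹, G.mul_mem hg (G.inv_mem hk), h * k⁻¹,
            G.mul_mem hh (G.inv_mem hk), ?_⟩
          rw [← hw]
          congr 1
          have hk0 : (k : K) ≠ 0 := k.ne_zero
          push_cast
          field_simp
          rw [hck] at hs
          linear_combination -hs

end

/-- In an infinite field there are vectors with nonzero subset sums. -/
theorem exists_lam (K : Type) [Field K] [Infinite K] (ι : Type) [Fintype ι] :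
    ∃ l : ι → K, ∀ I : Finset ι, I.Nonempty → ∑ i ∈ I, l i ≠ 0 := by
  classical
  suffices H : ∀ s : Finset ι, ∃ l : ι → K, ∀ I ⊆ s, I.Nonempty → ∑ i ∈ I, l i ≠ 0 by
    obtain ⟨l, hl⟩ := H Finset.univ
    exact ⟨l, fun I hI => hl I (Finset.subset_univ _) hI⟩
  intro s
  induction s using Finset.induction_on with
  | empty =>
    refine ⟨fun _ => 0, fun I hI hne => ?_⟩
    rw [Finset.subset_empty] at hI
    exact absurd hI hne.ne_empty
  | insert a s ha ih =>
    obtain ⟨l, hl⟩ := ih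
    obtain ⟨t, ht⟩ := Infinite.exists_notMem_finset
      (s.powerset.image (fun I => -∑ i ∈ I, l i))
    refine ⟨Function.update l a t, fun I hI hne => ?_⟩
    by_cases haI : a ∈ I
    · rw [← Finset.insert_erase haI, Finset.sum_insert (Finset.notMem_erase a I)]
      have h1 : ∑ i ∈ I.erase a, Function.update l a t i = ∑ i ∈ I.erase a, l i := by
        apply Finset.sum_congr rfl
        intro i hi
        rw [Function.update_of_ne (Finset.ne_of_mem_erase hi)]
      rw [h1, Function.update_self]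
      intro h
      apply ht
      rw [Finset.mem_image]
      refine ⟨I.erase a, ?_, ?_⟩
      · rw [Finset.mem_powerset]
        intro i hi
        have := hI (Finset.mem_of_mem_erase hi)
        rcases Finset.mem_insert.1 this with h | h
        · exact absurd h (Finset.ne_of_mem_erase hi)
        · exact h
      · linear_combination -h
    · have hIs : I ⊆ s := by
        intro i hi
        rcases Finset.mem_insert.1 (hI hi) with h | h
        · exact absurd (h ▸ hi) haI
        · exact h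
      have h1 : ∑ i ∈ I, Function.update l a t i = ∑ i ∈ I, l i := by
        apply Finset.sum_congr rfl
        intro i hi
        rw [Function.update_of_ne (by rintro rfl; exact haI hi)]
      rw [h1]
      exact hl I hIs hne

theorem GG_infinite {r : ℕ} {p : XX r} {K : Type} [Field K] [Infinite K] {G : Subgroup Kˣ}
    {f : K → Fin (r+1)} (W : QW p K G f) : GG K G := by
  classical
  obtain ⟨ι, hι, H⟩ := Combinatorics.Line.exists_mono_in_high_dimension (Fin (r+1)) (Fin (r+1))
  obtain ⟨l, hl⟩ := exists_lam K ι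
  choose s hs using W.1
  obtain ⟨L, c, hc⟩ := H (fun v => f (∑ i, l i * s (v i)))
  -- split into active and fixed coordinates
  set A := Finset.univ.filter (fun i => L.idxFun i = none) with hA
  set d := ∑ i ∈ A, l i with hd
  have hd0 : d ≠ 0 := hl A (by
    obtain ⟨i, hi⟩ := L.proper
    exact ⟨i, by simp [hA, hi]⟩)
  set x := ∑ i ∈ Aᶜ, l i * s (L 0 i) with hx
  have hsum : ∀ j, ∑ i, l i * s (L j i) = x + d * s j := by
    intro j
    rw [← Finset.sum_add_sum_compl A, add_comm]
    congr 1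
    · apply Finset.sum_congr rfl
      intro i hi
      have : L.idxFun i ≠ none := by simpa [hA] using hi
      obtain ⟨a, ha⟩ := Option.ne_none_iff_exists'.1 this
      rw [L.apply_some ha, L.apply_some ha]
    · rw [hd, Finset.sum_mul]
      apply Finset.sum_congr rfl
      intro i hi
      have : L.idxFun i = none := by simpa [hA] using hi
      rw [L.apply_none _ _ this]
  have hcol : ∀ j, f (x + d * s j) = c := fun j => by
    rw [← hsum]; exact hc j
  have hs0 : s 0 = 0 := (W.eq_zero_iff _).1 (hs 0)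
  have hxc : f x = c := by
    have := hcol 0
    rwa [hs0, mul_zero, add_zero] at this
  have hx0 : x ≠ 0 := by
    intro h
    have h1 := hcol (f 1)
    rw [← hxc, h, W.2.1, W.eq_zero_iff, zero_add] at h1
    rcases mul_eq_zero.1 h1 with h2 | h2
    · exact hd0 h2
    · have h3 := hs (f 1)
      rw [h2, W.2.1, eq_comm, W.eq_zero_iff] at h3
      exact one_ne_zero h3
  intro t ht
  have h1 : f (s (f (t * x / d))) = f (t * x / d) := hs _
  obtain ⟨g, hg, hgt⟩ := (W.2.2.1 _ _).1 h1
  have h2 : f x = f (x + d * s (f (t * x / d))) := by rw [hxc, hcol]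
  obtain ⟨h, hh, hht⟩ := (W.2.2.1 _ _).1 h2
  refine ⟨h * g, G.mul_mem hh hg, g, hg, ?_⟩
  have h3 : d * s (f (t * x / d)) = x * h - x := by linear_combination hht
  have h4 : t * x = (x * h - x) * g := by
    rw [← h3, mul_assoc, ← hgt]
    field_simp
  have h5 : x * t = x * (h * g - g) := by linear_combination h4
  have := mul_left_cancel₀ hx0 h5
  push_cast
  exact this

end Pool.Agent.R661
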