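import Mathlib
import Pool.Agent.R661.HFQuot

/-! Finite fields: every element is a difference of elements of a large multiplicative subgroup. -/

set_option autoImplicit false

namespace Pool.Agent.R661

open Finset ComplexConjugate

section Fourier
variable {K : Type} [Field K] [Fintype K] [DecidableEq K]

/-- Character sums over a set. -/
noncomputable def SS (ψ : AddChar K ℂ) (T : Finset K) (a : K) : ℂ := ∑ t ∈ T, ψ (a * t)

theorem SS_mul {ψ : AddChar K ℂ} {T : Finset K} (h0 : (0:K) ∉ T)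
    (hmul : ∀ s ∈ T, ∀ t ∈ T, s * t ∈ T) (a : K) {t : K} (ht : t ∈ T) :
    SS ψ T (a * t) = SS ψ T a := by
  have ht0 : t ≠ 0 := fun h => h0 (h ▸ ht)
  have himg : T.image (fun s => t * s) = T := by
    apply Finset.eq_of_subset_of_card_le
    · intro x hx
      obtain ⟨s, hs, rfl⟩ := mem_image.1 hx
      exact hmul t ht s hs
    · rw [card_image_of_injective _ (mul_right_injective₀ ht0)]
  unfold SS
  conv_rhs => rw [← himg]
  rw [sum_image (fun x _ y _ h => mul_right_injective₀ ht0 h)]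
  apply sum_congr rfl
  intro s _
  rw [mul_assoc]

theorem sum_SS_sq {ψ : AddChar K ℂ} (hψ : ψ.IsPrimitive) (T : Finset K) :
    ∑ a : K, SS ψ T a * conj (SS ψ T a) = (Fintype.card K : ℂ) * T.card := by
  have h1 : ∀ a : K, SS ψ T a * conj (SS ψ T a) = ∑ s ∈ T, ∑ t ∈ T, ψ (a * (s - t)) := by
    intro a
    unfold SS
    rw [map_sum, sum_mul_sum]
    apply sum_congr rfl; intro s _
    apply sum_congr rfl; intro t _
    rw [← AddChar.map_neg_eq_conj, ← AddChar.map_add_eq_mul]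
    congr 1; ring
  simp_rw [h1]
  rw [sum_comm]
  have h2 : ∀ s ∈ T, ∑ a : K, ∑ t ∈ T, ψ (a * (s - t)) = (Fintype.card K : ℂ) := by
    intro s hs
    rw [sum_comm]
    simp_rw [AddChar.sum_mulShift _ hψ, sub_eq_zero]
    rw [← Nat.cast_sum, sum_ite_eq, if_pos hs]
  rw [sum_congr rfl h2, sum_const, nsmul_eq_mul, mul_comm]

theorem sum_SS_triple {ψ : AddChar K ℂ} (hψ : ψ.IsPrimitive) (T : Finset K) (h0 : (0:K) ∉ T)
    (hmul : ∀ s ∈ T, ∀ t ∈ T, s * t ∈ T) (hinv : ∀ t ∈ T, t⁻¹ ∈ T) (c : K)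
    (hno : ∀ s ∈ T, ∀ t ∈ T, s - t ≠ c) :
    ∑ a : K, SS ψ T a * conj (SS ψ T a) * conj (SS ψ T (c * a)) = 0 := by
  have h1 : ∀ a : K, SS ψ T a * conj (SS ψ T a) * conj (SS ψ T (c * a)) =
      ∑ s ∈ T, ∑ t ∈ T, ∑ u ∈ T, ψ (a * (s - t - c * u)) := by
    intro a
    unfold SS
    rw [map_sum, map_sum, sum_mul_sum, sum_mul]
    apply sum_congr rfl; intro s _
    rw [sum_mul]
    apply sum_congr rfl; intro t _
    rw [mul_sum]
    apply sum_congr rfl; intro u _
    rw [← AddChar.map_neg_eq_conj, ← AddChar.map_neg_eq_conj, ← AddChar.map_add_eq_mul,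
      ← AddChar.map_add_eq_mul]
    congr 1; ring
  simp_rw [h1]
  rw [sum_comm]
  apply sum_eq_zero; intro s hs
  rw [sum_comm]
  apply sum_eq_zero; intro t ht
  rw [sum_comm]
  apply sum_eq_zero; intro u hu
  rw [AddChar.sum_mulShift _ hψ, if_neg]
  · simp
  intro h
  have hu0 : u ≠ 0 := fun h => h0 (h ▸ hu)
  apply hno (s * u⁻¹) (hmul s hs _ (hinv u hu)) (t * u⁻¹) (hmul t ht _ (hinv u hu))
  field_simp
  linear_combination h

theorem fourier_bound (T : Finset K) (h0 : (0:K) ∉ T) (h1 : (1:K) ∈ T)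
    (hmul : ∀ s ∈ T, ∀ t ∈ T, s * t ∈ T) (hinv : ∀ t ∈ T, t⁻¹ ∈ T) (c : K) (hc : c ≠ 0)
    (hno : ∀ s ∈ T, ∀ t ∈ T, s - t ≠ c) :
    T.card ^ 4 < (Fintype.card K) ^ 3 := by
  set ψ := AddChar.FiniteField.primitiveChar_to_Complex K
  have hψ : ψ.IsPrimitive := AddChar.FiniteField.primitiveChar_to_Complex_isPrimitive K
  set q : ℝ := (Fintype.card K : ℝ) with hq
  set k : ℝ := (T.card : ℝ) with hk
  have hkpos : 0 < k := by
    rw [hk]; exact_mod_cast card_pos.2 ⟨1, h1⟩
  have hqpos : 0 < q := by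
    rw [hq]; exact_mod_cast Fintype.card_pos
  -- second moment
  have hS2 : ∑ a : K, ‖SS ψ T a‖ ^ 2 = q * k := by
    have := sum_SS_sq hψ T
    simp_rw [Complex.mul_conj, Complex.normSq_eq_norm_sq] at this
    rw [hq, hk]
    exact_mod_cast this
  have hS0 : SS ψ T 0 = k := by
    unfold SS
    simp [hk]
  have hS2' : ∑ a ∈ univ.erase (0:K), ‖SS ψ T a‖ ^ 2 = q * k - k ^ 2 := by
    rw [← hS2, ← add_sum_erase univ _ (mem_univ (0:K)), hS0]
    simp
  have hbd : ∀ a : K, a ≠ 0 → ‖SS ψ T a‖ ^ 2 ≤ q := by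
    intro a ha
    have h2 : k * ‖SS ψ T a‖ ^ 2 = ∑ b ∈ T.image (fun t => a * t), ‖SS ψ T b‖ ^ 2 := by
      rw [sum_image (fun x _ y _ h => mul_right_injective₀ ha h)]
      rw [sum_congr rfl (fun t ht => by rw [SS_mul h0 hmul a ht])]
      rw [sum_const, nsmul_eq_mul]
    have h3 : ∑ b ∈ T.image (fun t => a * t), ‖SS ψ T b‖ ^ 2 ≤ q * k - k ^ 2 := by
      rw [← hS2']
      apply sum_le_sum_of_subset_of_nonneg
      · intro x hx
        obtain ⟨t, ht, rfl⟩ := mem_image.1 hx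
        rw [mem_erase]
        refine ⟨mul_ne_zero ha (fun h => h0 (h ▸ ht)), mem_univ _⟩
      · intro i _ _; positivity
    rw [← h2] at h3
    have h4 : k * ‖SS ψ T a‖ ^ 2 ≤ k * q := by nlinarith
    exact le_of_mul_le_mul_left h4 hkpos
  have hbd' : ∀ a : K, a ≠ 0 → ‖SS ψ T a‖ ≤ Real.sqrt q := fun a ha => by
    rw [← Real.sqrt_sq (norm_nonneg (SS ψ T a))]
    exact Real.sqrt_le_sqrt (hbd a ha)
  have h3 := sum_SS_triple hψ T h0 hmul hinv c hno
  rw [← add_sum_erase univ _ (mem_univ (0:K)), mul_zero, hS0] at h3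
  have h4 : k ^ 3 ≤ Real.sqrt q * (q * k - k ^ 2) := by
    have h5 : ‖∑ a ∈ univ.erase (0:K), SS ψ T a * conj (SS ψ T a) * conj (SS ψ T (c * a))‖ = k ^ 3 := by
      have : ∑ a ∈ univ.erase (0:K), SS ψ T a * conj (SS ψ T a) * conj (SS ψ T (c * a)) =
          -((k : ℂ) * conj (k : ℂ) * conj (k : ℂ)) := by linear_combination h3
      rw [this, Complex.conj_ofReal, norm_neg, norm_mul, norm_mul, Complex.norm_real,
        Real.norm_of_nonneg hkpos.le]
      ring
    rw [← h5, ← hS2', mul_sum]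
    refine (norm_sum_le _ _).trans ?_
    apply sum_le_sum
    intro a ha
    have ha0 : a ≠ 0 := (mem_erase.1 ha).1
    rw [norm_mul, norm_mul, Complex.norm_conj, Complex.norm_conj]
    have := hbd' (c * a) (mul_ne_zero hc ha0)
    have h6 : 0 ≤ ‖SS ψ T a‖ * ‖SS ψ T a‖ := by positivity
    nlinarith
  have hsq : 0 < Real.sqrt q := Real.sqrt_pos.2 hqpos
  have h5 : k ^ 3 < Real.sqrt q * q * k := by nlinarith [mul_pos hsq (pow_pos hkpos 2)]
  have h6 : k ^ 2 < Real.sqrt q * q := by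
    have : k * k ^ 2 < k * (Real.sqrt q * q) := by nlinarith
    exact lt_of_mul_lt_mul_left this hkpos.le
  have h7 : (k ^ 2) ^ 2 < (Real.sqrt q * q) ^ 2 := by
    apply pow_lt_pow_left₀ h6 (by positivity) (by norm_num)
  have h8 : (Real.sqrt q * q) ^ 2 = q ^ 3 := by
    rw [mul_pow, Real.sq_sqrt hqpos.le]; ring
  rw [h8] at h7
  have h9 : k ^ 4 < q ^ 3 := by nlinarith
  rw [hk, hq] at h9
  exact_mod_cast h9

end Fourier

theorem card_quot_eq {r : ℕ} {p : XX r} {K : Type} [Field K] [Finite K] {G : Subgroup Kˣ}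
    {f : K → Fin (r+1)} (W : QW p K G f) : Nat.card K = r * Nat.card G + 1 := by
  classical
  have := Fintype.ofFinite K
  have := Fintype.ofFinite (Kˣ ⧸ G)
  have h1 := Subgroup.card_eq_card_quotient_mul_card_subgroup G
  rw [Nat.card_eq_fintype_card (α := Kˣ ⧸ G), W.emb.card] at h1
  have h2 := Nat.card_eq_card_units_add_one K
  rw [h2, h1]

theorem GG_finite {r : ℕ} {p : XX r} {K : Type} [Field K] [Finite K] {G : Subgroup Kˣ}
    {f : K → Fin (r+1)} (W : QW p K G f) (hq : (r + 1) ^ 4 ≤ Nat.card K) : GG K G := by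
  classical
  have := Fintype.ofFinite K
  intro c hc
  by_contra hcon
  push Not at hcon
  set T : Finset K := univ.filter (fun x => ∃ g ∈ G, x = ((g : Kˣ) : K)) with hT
  have hmem : ∀ x, x ∈ T ↔ ∃ g ∈ G, x = ((g : Kˣ) : K) := fun x => by simp [hT]
  have hcard : T.card = Nat.card G := by
    have h1 : T.card = Nat.card (T : Set K) := by simp
    rw [h1]
    apply Nat.card_congr
    refine (Equiv.ofBijective (fun g : G => (⟨((g : Kˣ) : K), by
      rw [mem_coe, hmem]; exact ⟨g, g.2, rfl⟩⟩ : (T : Set K))) ⟨?_, ?_⟩).symm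
    · intro g h hgh
      have := Subtype.ext_iff.1 hgh
      exact Subtype.ext (Units.ext this)
    · rintro ⟨x, hx⟩
      rw [mem_coe, hmem] at hx
      obtain ⟨g, hg, rfl⟩ := hx
      exact ⟨⟨g, hg⟩, rfl⟩
  have hlt := fourier_bound T (by
      rw [hmem]; rintro ⟨g, -, h⟩; exact g.ne_zero h.symm)
    (by rw [hmem]; exact ⟨1, G.one_mem, by simp⟩)
    (by
      intro s hs t ht
      rw [hmem] at hs ht ⊢
      obtain ⟨g, hg, rfl⟩ := hs
      obtain ⟨h, hh, rfl⟩ := ht
      exact ⟨g * h, G.mul_mem hg hh, by push_cast; rfl⟩)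
    (by
      intro s hs
      rw [hmem] at hs ⊢
      obtain ⟨g, hg, rfl⟩ := hs
      exact ⟨g⁻¹, G.inv_mem hg, by simp⟩) c hc
    (by
      intro s hs t ht h
      rw [hmem] at hs ht
      obtain ⟨g, hg, rfl⟩ := hs
      obtain ⟨h', hh, rfl⟩ := ht
      exact hcon g hg h' hh h.symm)
  rw [hcard] at hlt
  have hqk := card_quot_eq W
  rw [Nat.card_eq_fintype_card] at hq hqk
  set q := Fintype.card K
  set k := Nat.card G
  have hr := W.one_le
  have h1 : q * r ≤ (r * k) * (r + 1) := by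
    have h2 : r + 1 ≤ q := by
      refine le_trans ?_ hq
      exact Nat.le_self_pow (by norm_num) _
    have : r * k = q - 1 := by omega
    rw [this]
    zify [show 1 ≤ q by omega]
    have h2' : (r : ℤ) + 1 ≤ q := by exact_mod_cast h2
    nlinarith
  have h2 : q ≤ k * (r + 1) := by
    have : r * q ≤ r * (k * (r + 1)) := by linarith [h1, mul_comm q r, mul_assoc r k (r+1)]
    exact Nat.le_of_mul_le_mul_left this (by omega)
  have h3 : q ^ 4 ≤ k ^ 4 * (r + 1) ^ 4 := by
    rw [← mul_pow]; exact Nat.pow_le_pow_left h2 4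
  have h4 : k ^ 4 * (r + 1) ^ 4 ≤ k ^ 4 * q := Nat.mul_le_mul_left _ hq
  have hqpos : 0 < q := Fintype.card_pos
  have h5 : k ^ 4 * q < q ^ 3 * q := Nat.mul_lt_mul_of_pos_right hlt hqpos
  have h6 : q ^ 3 * q = q ^ 4 := by ring
  omega

/-- Either the witness is a small finite field or every element is a difference. -/
theorem GG_or_small {r : ℕ} {p : XX r} {K : Type} [Field K] {G : Subgroup Kˣ}
    {f : K → Fin (r+1)} (W : QW p K G f) :
    GG K G ∨ (Finite K ∧ Nat.card K < (r + 1) ^ 4) := by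
  by_cases hfin : Finite K
  · by_cases h : (r + 1) ^ 4 ≤ Nat.card K
    · exact Or.inl (GG_finite W h)
    · exact Or.inr ⟨hfin, not_le.1 h⟩
  · have : Infinite K := not_finite_iff_infinite.1 hfin
    exact Or.inl (GG_infinite W)

/-- The isomorphism relation. -/
def Iso {r : ℕ} (p q : XX r) : Prop :=
  ∃ e : Fin (r+1) ≃ Fin (r+1), ∀ a b, e (p.1 a b) = q.1 (e a) (e b) ∧ e '' p.2 a b = q.2 (e a) (e b)

/-- Quotient hyperfields of finite fields of the same cardinality are isomorphic. -/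
theorem iso_of_card_eq {r : ℕ} {p p' : XX r} {K K' : Type} [Field K] [Field K'] [Finite K]
    [Finite K'] {G : Subgroup Kˣ} {G' : Subgroup K'ˣ}
    {f : K → Fin (r+1)} {f' : K' → Fin (r+1)} (W : QW p K G f) (W' : QW p' K' G' f')
    (hcard : Nat.card K = Nat.card K') : Iso p p' := by
  classical
  have := Fintype.ofFinite K
  have := Fintype.ofFinite K'
  have hc : Fintype.card K = Fintype.card K' := by
    rwa [Nat.card_eq_fintype_card, Nat.card_eq_fintype_card] at hcard
  let φ : K ≃+* K' := FiniteField.ringEquivOfCardEq hc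
  let ψ : Kˣ ≃* K'ˣ := Units.mapEquiv φ.toMulEquiv
  have hGk : Nat.card G = Nat.card G' := by
    have h1 := card_quot_eq W
    have h2 := card_quot_eq W'
    have h3 := W.one_le
    have : r * Nat.card G = r * Nat.card G' := by omega
    exact Nat.eq_of_mul_eq_mul_left (by omega) this
  -- the image of `G` is `G'`
  have huniq : ∀ (H H' : Subgroup K'ˣ), Nat.card H = Nat.card H' → H = H' := by
    have key : ∀ (H : Subgroup K'ˣ) (x : K'ˣ), x ∈ H ↔ x ^ Nat.card H = 1 := by
      intro H x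
      constructor
      · intro hx
        have := pow_card_eq_one' (x := (⟨x, hx⟩ : H))
        have := Subtype.ext_iff.1 this
        rwa [Subgroup.coe_pow, Subgroup.coe_one] at this
      · intro hx
        have h1 : (univ.filter (fun a : K'ˣ => a ^ Nat.card H = 1)).card ≤ Nat.card H :=
          IsCyclic.card_pow_eq_one_le Nat.card_pos
        have h2 : (univ.filter (fun a : K'ˣ => a ∈ H)) ⊆
            (univ.filter (fun a : K'ˣ => a ^ Nat.card H = 1)) := by
          intro a ha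
          simp only [mem_filter, mem_univ, true_and] at ha ⊢
          have := pow_card_eq_one' (x := (⟨a, ha⟩ : H))
          have := Subtype.ext_iff.1 this
          rwa [Subgroup.coe_pow, Subgroup.coe_one] at this
        have h3 : (univ.filter (fun a : K'ˣ => a ∈ H)).card = Nat.card H := by
          rw [Nat.card_eq_fintype_card, Fintype.card_subtype]
        have h4 := Finset.eq_of_subset_of_card_le h2 (by rw [h3]; exact h1)
        have : x ∈ (univ.filter (fun a : K'ˣ => a ^ Nat.card H = 1)) :=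
          mem_filter.2 ⟨mem_univ _, hx⟩
        rw [← h4] at this
        exact (mem_filter.1 this).2
    intro H H' h
    ext x
    rw [key, key, h]
  have hmap : G.map ψ.toMonoidHom = G' := by
    apply huniq
    rw [← hGk]
    exact (Nat.card_congr (G.equivMapOfInjective ψ.toMonoidHom ψ.injective).toEquiv).symm
  have hG : ∀ g ∈ G, ∃ g' ∈ G', φ (g : K) = (g' : K') := by
    intro g hg
    refine ⟨ψ g, ?_, rfl⟩
    rw [← hmap]
    exact ⟨g, hg, rfl⟩
  have hG' : ∀ g' ∈ G', ∃ g ∈ G, φ (g : K) = (g' : K') := by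
    intro g' hg'
    rw [← hmap] at hg'
    obtain ⟨g, hg, rfl⟩ := hg'
    exact ⟨g, hg, rfl⟩
  choose s hs using W.1
  have hwd : ∀ x y : K, f x = f y ↔ f' (φ x) = f' (φ y) := by
    intro x y
    rw [W.2.2.1, W'.2.2.1]
    constructor
    · rintro ⟨g, hg, rfl⟩
      obtain ⟨g', hg', h⟩ := hG g hg
      exact ⟨g', hg', by rw [map_mul, h]⟩
    · rintro ⟨g', hg', h⟩
      obtain ⟨g, hg, h'⟩ := hG' g' hg'
      refine ⟨g, hg, φ.injective ?_⟩
      rw [map_mul, h', h]
  have hsφ : ∀ x, f' (φ (s (f x))) = f' (φ x) := fun x => by rw [← hwd, hs]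
  have hbij : Function.Bijective (fun a => f' (φ (s a))) := by
    rw [← Finite.injective_iff_bijective]
    intro a b hab
    simp only at hab
    rw [← hwd, hs, hs] at hab
    exact hab
  refine ⟨Equiv.ofBijective _ hbij, ?_⟩
  intro a b
  obtain ⟨x, rfl⟩ := W.1 a
  obtain ⟨y, rfl⟩ := W.1 b
  simp only [Equiv.ofBijective_apply]
  refine ⟨?_, ?_⟩
  · rw [← W.2.2.2.1, hsφ, hsφ, hsφ, map_mul, W'.2.2.2.1]
  · rw [hsφ, hsφ, W'.2.2.2.2, W.2.2.2.2]
    ext z
    constructor
    · rintro ⟨_, ⟨g, hg, h, hh, rfl⟩, rfl⟩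
      obtain ⟨g', hg', e1⟩ := hG g hg
      obtain ⟨h', hh', e2⟩ := hG h hh
      refine ⟨g', hg', h', hh', ?_⟩
      simp only
      rw [hsφ, map_add, map_mul, map_mul, e1, e2]
    · rintro ⟨g', hg', h', hh', rfl⟩
      obtain ⟨g, hg, e1⟩ := hG' g' hg'
      obtain ⟨h, hh, e2⟩ := hG' h' hh'
      refine ⟨f (x * g + y * h), ⟨g, hg, h, hh, rfl⟩, ?_⟩
      simp only
      rw [hsφ, map_add, map_mul, map_mul, e1, e2]

end Pool.Agent.R661
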