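import Mathlib
import Pool.Agent.R661.HFFin

/-! Few automorphisms. -/

set_option autoImplicit false

namespace Pool.Agent.R661

open Finset

theorem exists_gen (Γ : Type) [Group Γ] [Finite Γ] : ∃ S : Finset Γ,
    Subgroup.closure (S : Set Γ) = ⊤ ∧ 2 ^ S.card ≤ Nat.card Γ := by
  classical
  have := Fintype.ofFinite Γ
  obtain ⟨S, hS, hmax⟩ := Finset.exists_max_image
    (univ.filter (fun S : Finset Γ => 2 ^ S.card ≤ Nat.card (Subgroup.closure (S : Set Γ))))
    (fun S => S.card) ⟨∅, by simp⟩
  simp only [mem_filter, mem_univ, true_and] at hS hmax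
  refine ⟨S, ?_, hS.trans (Subgroup.card_le_card_group _)⟩
  by_contra hne
  obtain ⟨g, hg⟩ : ∃ g : Γ, g ∉ Subgroup.closure (S : Set Γ) := by
    by_contra hcon
    push Not at hcon
    exact hne ((Subgroup.eq_top_iff' _).2 hcon)
  have hgS : g ∉ S := fun h => hg (Subgroup.subset_closure h)
  have hle : Subgroup.closure (S : Set Γ) ≤ Subgroup.closure ((insert g S : Finset Γ) : Set Γ) :=
    Subgroup.closure_mono (by simp)
  have hdvd := Subgroup.card_dvd_of_le hle
  have hne' : Nat.card (Subgroup.closure (S : Set Γ)) ≠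
      Nat.card (Subgroup.closure ((insert g S : Finset Γ) : Set Γ)) := by
    intro h
    have := Subgroup.eq_of_le_of_card_ge hle h.ge
    apply hg
    rw [this]
    exact Subgroup.subset_closure (by simp)
  have h2 : 2 * Nat.card (Subgroup.closure (S : Set Γ)) ≤
      Nat.card (Subgroup.closure ((insert g S : Finset Γ) : Set Γ)) := by
    obtain ⟨c, hc⟩ := hdvd
    have hc0 : c ≠ 0 := by
      rintro rfl
      have : 0 < Nat.card (Subgroup.closure ((insert g S : Finset Γ) : Set Γ)) := Nat.card_pos
      omega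
    have hc1 : c ≠ 1 := by
      rintro rfl
      rw [mul_one] at hc
      exact hne' hc.symm
    rw [hc, mul_comm]
    exact Nat.mul_le_mul_left _ (by omega)
  have := hmax (insert g S) (by
    rw [card_insert_of_notMem hgS, pow_succ]
    omega)
  rw [card_insert_of_notMem hgS] at this
  omega

/-- The automorphisms of a multiplication table. -/
def AutT {r : ℕ} (m : Fin (r+1) → Fin (r+1) → Fin (r+1)) : Set (Fin (r+1) ≃ Fin (r+1)) :=
  {e | e 0 = 0 ∧ ∀ a b, e (m a b) = m (e a) (e b)}

theorem card_autT {r : ℕ} {Γ : Type} [CommGroup Γ] [Finite Γ] {ι : Γ → Fin (r+1)}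
    {m : Fin (r+1) → Fin (r+1) → Fin (r+1)} (E : Emb r Γ ι m) :
    (AutT m).ncard ≤ (r + 1) ^ (Nat.log 2 r) := by
  classical
  have := Fintype.ofFinite Γ
  obtain ⟨S, hS, hcard⟩ := exists_gen Γ
  rw [Nat.card_eq_fintype_card, E.card] at hcard
  have hr : r ≠ 0 := by
    intro h
    rw [h] at hcard
    have : 0 < 2 ^ S.card := by positivity
    omega
  have hlog : S.card ≤ Nat.log 2 r := Nat.le_log_of_pow_le (by norm_num) hcard
  have hinj : Set.InjOn (fun (e : Fin (r+1) ≃ Fin (r+1)) => (fun s : S => e (ι s))) (AutT m) := by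
    intro e he e' he' h
    ext a
    congr 1
    rcases E.cases a with rfl | ⟨g, rfl⟩
    · rw [he.1, he'.1]
    · have hmul : ∀ (e : Fin (r+1) ≃ Fin (r+1)), e ∈ AutT m → ∀ g h : Γ,
          e (ι (g * h)) = m (e (ι g)) (e (ι h)) := by
        intro e he g h
        rw [← E.mul, he.2]
      have hone : ∀ (e : Fin (r+1) ≃ Fin (r+1)), e ∈ AutT m → e (ι 1) = ι 1 := by
        intro e he
        have hne : e (ι 1) ≠ 0 := by
          intro h
          rw [← he.1] at h
          exact E.ne 1 (e.injective h)
        obtain ⟨t, ht⟩ := E.surj _ hne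
        have h2 := hmul e he 1 1
        rw [one_mul, ← ht, E.mul] at h2
        have h3 := E.inj h2
        rw [← ht]
        congr 1
        exact (mul_eq_left.1 h3.symm)
      have hmem : g ∈ Subgroup.closure (S : Set Γ) := by rw [hS]; trivial
      induction hmem using Subgroup.closure_induction with
      | mem x hx => exact congrFun h ⟨x, hx⟩
      | one => rw [hone e he, hone e' he']
      | mul x y _ _ ihx ihy => rw [hmul e he, hmul e' he', ihx, ihy]
      | inv x _ ih =>
        have hne : ∀ (e : Fin (r+1) ≃ Fin (r+1)), e ∈ AutT m → ∀ y, ∃ t, e (ι y) = ι t := by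
          intro e he y
          rcases E.cases (e (ι y)) with h | h
          · rw [← he.1] at h
            exact absurd (e.injective h) (E.ne y)
          · exact h
        obtain ⟨t, ht⟩ := hne e he x⁻¹
        obtain ⟨t', ht'⟩ := hne e' he' x⁻¹
        obtain ⟨u, hu⟩ := hne e he x
        have h1 := hmul e he x x⁻¹
        have h2 := hmul e' he' x x⁻¹
        rw [mul_inv_cancel, hone e he, ht, hu, E.mul] at h1
        rw [mul_inv_cancel, hone e' he', ht', ← ih, hu, E.mul] at h2
        have h3 := E.inj h1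
        have h4 := E.inj h2
        rw [ht, ht']
        congr 1
        rw [h3] at h4
        exact mul_left_cancel h4
  calc (AutT m).ncard ≤ (Set.univ : Set (S → Fin (r+1))).ncard :=
        Set.ncard_le_ncard_of_injOn _ (fun _ _ => Set.mem_univ _) hinj (Set.toFinite _)
    _ = (r + 1) ^ S.card := by
        rw [Set.ncard_univ, Nat.card_eq_fintype_card, Fintype.card_fun]
        simp
    _ ≤ (r + 1) ^ (Nat.log 2 r) := Nat.pow_le_pow_right (by omega) hlog

end Pool.Agent.R661
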