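import Mathlib
import Pool.Agent.R661.HFAut

/-! Counting isomorphism classes of hyperfields and of quotient hyperfields. -/

set_option autoImplicit false

namespace Pool.Agent.R661

open Finset

/-- Being a quotient hyperfield. -/
def QF {r : ℕ} (p : XX r) : Prop :=
  ∃ (K : Type) (_ : Field K), ∃ G : Subgroup Kˣ, ∃ f : K → Fin (r+1), QW p K G f

/-- Being a quotient hyperfield of a large field. -/
def FQ {r : ℕ} (p : XX r) : Prop :=
  ∃ (K : Type) (_ : Field K), ∃ G : Subgroup Kˣ, ∃ f : K → Fin (r+1), QW p K G f ∧ GG K G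

theorem Iso.refl {r : ℕ} (p : XX r) : Iso p p := ⟨Equiv.refl _, fun a b => by simp⟩

theorem Iso.symm {r : ℕ} {p q : XX r} (h : Iso p q) : Iso q p := by
  obtain ⟨e, he⟩ := h
  refine ⟨e.symm, fun a b => ?_⟩
  have := he (e.symm a) (e.symm b)
  simp only [Equiv.apply_symm_apply] at this
  refine ⟨?_, ?_⟩
  · rw [← this.1]; simp
  · rw [← this.2]; simp

theorem Iso.trans {r : ℕ} {p q s : XX r} (h : Iso p q) (h' : Iso q s) : Iso p s := by
  obtain ⟨e, he⟩ := h
  obtain ⟨e', he'⟩ := h'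
  refine ⟨e.trans e', fun a b => ?_⟩
  refine ⟨?_, ?_⟩
  · simp only [Equiv.trans_apply]
    rw [(he a b).1, (he' _ _).1]
  · simp only [Equiv.trans_apply]
    rw [← (he' _ _).2, ← (he a b).2, ← Set.image_comp]
    rfl

/-- The multiplication tables up to bijections fixing zero. -/
def tabSetoid (r : ℕ) : Setoid (Fin (r+1) → Fin (r+1) → Fin (r+1)) where
  r m m' := ∃ e : Fin (r+1) ≃ Fin (r+1), e 0 = 0 ∧ ∀ a b, e (m a b) = m' (e a) (e b)
  iseqv := {
    refl := fun m => ⟨Equiv.refl _, rfl, fun a b => rfl⟩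
    symm := by
      rintro m m' ⟨e, h0, h⟩
      refine ⟨e.symm, by rw [Equiv.symm_apply_eq, h0], fun a b => ?_⟩
      rw [Equiv.symm_apply_eq, h]; simp
    trans := by
      rintro m m' m'' ⟨e, h0, h⟩ ⟨e', h0', h'⟩
      refine ⟨e.trans e', by simp [h0, h0'], fun a b => ?_⟩
      simp only [Equiv.trans_apply]
      rw [h, h'] }

/-- The canonical table. -/
noncomputable def can {r : ℕ} (m : Fin (r+1) → Fin (r+1) → Fin (r+1)) :
    Fin (r+1) → Fin (r+1) → Fin (r+1) := (Quotient.mk (tabSetoid r) m).out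

theorem can_rel {r : ℕ} (m : Fin (r+1) → Fin (r+1) → Fin (r+1)) :
    ∃ e : Fin (r+1) ≃ Fin (r+1), e 0 = 0 ∧ ∀ a b, e (m a b) = can m (e a) (e b) := by
  have : (tabSetoid r).r (can m) m := Quotient.exact (Quotient.out_eq (Quotient.mk (tabSetoid r) m))
  exact (tabSetoid r).iseqv.symm this

theorem can_eq {r : ℕ} {m m' : Fin (r+1) → Fin (r+1) → Fin (r+1)}
    (h : ∃ e : Fin (r+1) ≃ Fin (r+1), e 0 = 0 ∧ ∀ a b, e (m a b) = m' (e a) (e b)) :
    can m = can m' := by
  unfold can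
  have : Quotient.mk (tabSetoid r) m = Quotient.mk (tabSetoid r) m' := Quotient.sound h
  rw [this]

/-- Tables of groups with zero. -/
def IsTab {r : ℕ} (m : Fin (r+1) → Fin (r+1) → Fin (r+1)) : Prop :=
  ∃ (Γ : Type) (_ : CommGroup Γ) (_ : Finite Γ) (ι : Γ → Fin (r+1)), Emb r Γ ι m

/-- Transport of structure. -/
def tr {r : ℕ} (e : Fin (r+1) ≃ Fin (r+1)) (p : XX r) : XX r :=
  (fun a b => e (p.1 (e.symm a) (e.symm b)), fun a b => e '' p.2 (e.symm a) (e.symm b))

theorem iso_tr {r : ℕ} (e : Fin (r+1) ≃ Fin (r+1)) (p : XX r) : Iso p (tr e p) :=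
  ⟨e, fun a b => by simp [tr]⟩

theorem QW.tr {r : ℕ} {p : XX r} {K : Type} [Field K] {G : Subgroup Kˣ} {f : K → Fin (r+1)}
    (W : QW p K G f) (e : Fin (r+1) ≃ Fin (r+1)) (he : e 0 = 0) :
    QW (tr e p) K G (fun x => e (f x)) := by
  obtain ⟨h1, h2, h3, h4, h5⟩ := W
  refine ⟨e.surjective.comp h1, by simp only [h2, he], fun x y => ?_, fun x y => ?_, fun x y => ?_⟩
  · rw [← h3]; exact e.injective.eq_iff
  · simp [R661.tr, h4]
  · simp only [R661.tr, Equiv.symm_apply_apply, h5]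
    ext z
    constructor
    · rintro ⟨_, ⟨g, hg, h, hh, rfl⟩, rfl⟩
      exact ⟨g, hg, h, hh, rfl⟩
    · rintro ⟨g, hg, h, hh, rfl⟩
      exact ⟨_, ⟨g, hg, h, hh, rfl⟩, rfl⟩

theorem QW.isTab {r : ℕ} {p : XX r} {K : Type} [Field K] {G : Subgroup Kˣ} {f : K → Fin (r+1)}
    (W : QW p K G f) : IsTab p.1 :=
  ⟨Kˣ ⧸ G, inferInstance, Finite.of_injective _ W.emb.inj, W.iota, W.emb⟩

theorem Emb.move {r : ℕ} {Γ : Type} [CommGroup Γ] {ι : Γ → Fin (r+1)}
    {m m' : Fin (r+1) → Fin (r+1) → Fin (r+1)} (E : Emb r Γ ι m)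
    (e : Fin (r+1) ≃ Fin (r+1)) (h0 : e 0 = 0) (h : ∀ a b, e (m a b) = m' (e a) (e b)) :
    Emb r Γ (fun g => e (ι g)) m' where
  inj := e.injective.comp E.inj
  ne := fun g hg => E.ne g (e.injective (by rw [hg, h0]))
  surj := by
    intro a ha
    obtain ⟨g, hg⟩ := E.surj (e.symm a) (fun h => ha (by
      rw [Equiv.symm_apply_eq, h0] at h; exact h))
    exact ⟨g, by simp [hg]⟩
  mul := fun g k => by rw [← h, E.mul]
  zl := fun a => by
    have := h 0 (e.symm a)
    rw [E.zl, h0, Equiv.apply_symm_apply] at this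
    exact this.symm
  zr := fun a => by
    have := h (e.symm a) 0
    rw [E.zr, h0, Equiv.apply_symm_apply] at this
    exact this.symm

/-- There are tables of groups. -/
theorem exists_tab (r : ℕ) (hr : 1 ≤ r) :
    ∃ m : Fin (r+1) → Fin (r+1) → Fin (r+1), IsTab m ∧ can m = m := by
  classical
  have : NeZero r := ⟨by omega⟩
  have hcard : Fintype.card (Multiplicative (ZMod r)) = Fintype.card {a : Fin (r+1) // a ≠ 0} := by
    rw [Fintype.card_multiplicative, ZMod.card]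
    simp [Fintype.card_subtype_compl]
  let e := Fintype.equivOfCardEq hcard
  let m : Fin (r+1) → Fin (r+1) → Fin (r+1) := fun a b =>
    if h : a ≠ 0 ∧ b ≠ 0 then ((e (e.symm ⟨a, h.1⟩ * e.symm ⟨b, h.2⟩) : {a : Fin (r+1) // a ≠ 0}) :
      Fin (r+1)) else 0
  have E : Emb r (Multiplicative (ZMod r)) (fun g => (e g : Fin (r+1))) m := {
    inj := fun g h hgh => e.injective (Subtype.ext hgh)
    ne := fun g => (e g).2
    surj := fun a ha => ⟨e.symm ⟨a, ha⟩, by simp⟩
    mul := fun g h => by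
      simp only [m]
      rw [dif_pos ⟨(e g).2, (e h).2⟩]
      simp
    zl := fun a => by simp [m]
    zr := fun a => by simp [m] }
  obtain ⟨e', h0, h⟩ := can_rel m
  refine ⟨can m, ⟨Multiplicative (ZMod r), inferInstance, inferInstance, _, E.move e' h0 h⟩, ?_⟩
  exact (can_eq ⟨e', h0, h⟩).symm

open Classical in
/-- Hyperfields with canonical table. -/
noncomputable def PP (r : ℕ) : Finset (XX r) :=
  univ.filter (fun p => HF p ∧ IsTab p.1 ∧ can p.1 = p.1)

open Classical in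
/-- Large quotient hyperfields with canonical table. -/
noncomputable def PQ (r : ℕ) : Finset (XX r) :=
  univ.filter (fun p => FQ p ∧ can p.1 = p.1)

open Classical in
theorem fiber_PP {r : ℕ} {m : Fin (r+1) → Fin (r+1) → Fin (r+1)} (hm : IsTab m) (hc : can m = m)
    (hr : ((r : ℕ) : ℝ) ^ 4 * (3 / 4 : ℝ) ^ (r / 24) ≤ 1 / 2) :
    ∃ N : ℕ, 2 ^ (r / 6) ≤ 2 ^ N ∧ 2 ^ N ≤ 2 * ((PP r).filter (fun p => p.1 = m)).card ∧
      2 ^ (r / 6) * ((PQ r).filter (fun p => p.1 = m)).card ≤ r * 2 ^ N := by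
  obtain ⟨Γ, _, _, ι, E⟩ := hm
  have := Fintype.ofFinite Γ
  have hcard : Fintype.card Γ = r := E.card
  refine ⟨Fintype.card (Trip Γ), ?_, ?_, ?_⟩
  · have := two_pow_le_trip (Γ := Γ)
    rwa [hcard] at this
  · have h1 := good_half (Γ := Γ) (by rw [hcard]; exact hr)
    refine h1.trans (Nat.mul_le_mul_left _ ?_)
    apply Finset.card_le_card_of_injOn (fun S => ((m, addOf ι S) : XX r))
    · intro S hS
      have hS' : Good S := (mem_filter.1 (mem_coe.1 hS)).2
      rw [mem_coe, mem_filter]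
      refine ⟨?_, rfl⟩
      unfold PP
      rw [mem_filter]
      exact ⟨mem_univ _, HF_addOf E S hS', ⟨Γ, _, inferInstance, ι, E⟩, hc⟩
    · intro S _ T _ h
      exact addOf_injective E (Prod.ext_iff.1 h).2
  · have hsub : ((PQ r).filter (fun p => p.1 = m)) ⊆ (univ : Finset Γ).biUnion (fun e =>
        (univ.filter (fun S : Finset (Trip Γ) => ∀ z, mk3 1 e z ∈ S)).image
          (fun S => ((m, addE ι e S) : XX r))) := by
      intro p hp
      rw [mem_filter] at hp
      obtain ⟨hp, hpm⟩ := hp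
      unfold PQ at hp
      rw [mem_filter] at hp
      obtain ⟨-, ⟨K, _, G, f, W, hGG⟩, -⟩ := hp
      subst hpm
      obtain ⟨e, S, hS, hadd⟩ := quot_rep E W hGG
      rw [mem_biUnion]
      refine ⟨e, mem_univ _, ?_⟩
      rw [mem_image]
      refine ⟨S, mem_filter.2 ⟨mem_univ _, hS⟩, ?_⟩
      rw [← hadd]
    have h2 : ((PQ r).filter (fun p => p.1 = m)).card ≤
        ∑ e : Γ, (univ.filter (fun S : Finset (Trip Γ) => ∀ z, mk3 1 e z ∈ S)).card := by
      refine (card_le_card hsub).trans (card_biUnion_le.trans ?_)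
      exact sum_le_sum (fun e _ => card_image_le)
    refine (Nat.mul_le_mul_left _ h2).trans ?_
    rw [mul_sum]
    have h3 : ∀ e ∈ (univ : Finset Γ), 2 ^ (r / 6) *
        (univ.filter (fun S : Finset (Trip Γ) => ∀ z, mk3 1 e z ∈ S)).card ≤
        2 ^ (Fintype.card (Trip Γ)) := by
      intro e _
      have := card_full e
      rwa [hcard] at this
    refine (sum_le_sum h3).trans ?_
    rw [sum_const, card_univ, hcard, smul_eq_mul]

open Classical in
theorem card_PQ_le {r : ℕ} (hr : ((r : ℕ) : ℝ) ^ 4 * (3 / 4 : ℝ) ^ (r / 24) ≤ 1 / 2) :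
    2 ^ (r / 6) * (PQ r).card ≤ 2 * r * (PP r).card := by
  rw [card_eq_sum_card_fiberwise (s := PQ r) (f := fun p => p.1) (t := univ)
      (fun _ _ => mem_coe.2 (mem_univ _)),
    card_eq_sum_card_fiberwise (s := PP r) (f := fun p => p.1) (t := univ)
      (fun _ _ => mem_coe.2 (mem_univ _)), mul_sum, mul_sum]
  apply sum_le_sum
  intro m _
  by_cases hne : ((PQ r).filter (fun p => p.1 = m)).Nonempty
  · obtain ⟨p, hp⟩ := hne
    rw [mem_filter] at hp
    obtain ⟨hp, hpm⟩ := hp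
    unfold PQ at hp
    rw [mem_filter] at hp
    obtain ⟨-, ⟨K, _, G, f, W, hGG⟩, hc⟩ := hp
    rw [hpm] at hc
    have htab := W.isTab
    rw [hpm] at htab
    obtain ⟨N, -, h2, h3⟩ := fiber_PP htab hc hr
    calc _ ≤ r * 2 ^ N := h3
      _ ≤ r * (2 * ((PP r).filter (fun p => p.1 = m)).card) := Nat.mul_le_mul_left _ h2
      _ = _ := by ring
  · rw [not_nonempty_iff_eq_empty] at hne
    rw [hne]
    simp

/-- The isomorphism classes of hyperfields. -/
def HC (r : ℕ) : Set (Set (XX r)) := {C | ∃ p, HF p ∧ C = {q | HF q ∧ Iso p q}}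

/-- The isomorphism classes of quotient hyperfields. -/
def QC (r : ℕ) : Set (Set (XX r)) := {C | ∃ p, QF p ∧ C = {q | QF q ∧ Iso p q}}

open Classical in
theorem card_PP_le (r : ℕ) : (PP r).card ≤ (r + 1) ^ (Nat.log 2 r) * (HC r).ncard := by
  set Φ : XX r → Set (XX r) := fun p => {q | HF q ∧ Iso p q} with hΦ
  have h1 : (PP r).card ≤ (r + 1) ^ (Nat.log 2 r) * ((PP r).image Φ).card := by
    apply card_le_mul_card_image
    intro C hC
    obtain ⟨p, hp, rfl⟩ := mem_image.1 hC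
    unfold PP at hp
    rw [mem_filter] at hp
    obtain ⟨-, hHF, htab, hcan⟩ := hp
    have htab' := htab
    obtain ⟨Γ, _, _, ι, E⟩ := htab'
    have hsub : (((PP r).filter (fun q => Φ q = Φ p) : Finset (XX r)) : Set (XX r)) ⊆
        (fun e => tr e p) '' (AutT p.1) := by
      intro q hq
      rw [mem_coe, mem_filter] at hq
      obtain ⟨hq, hΦq⟩ := hq
      unfold PP at hq
      rw [mem_filter] at hq
      obtain ⟨-, hHF', htab', hcan'⟩ := hq
      have hq : q ∈ Φ q := ⟨hHF', Iso.refl q⟩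
      rw [hΦq] at hq
      obtain ⟨-, e, he⟩ := hq
      obtain ⟨Γ', _, _, ι', E'⟩ := htab'
      have he0 : e 0 = 0 := by
        have h1 := (he 0 (e.symm 0)).1
        rw [Equiv.apply_symm_apply, E'.zr, E.zl] at h1
        exact h1
      have hpq : p.1 = q.1 := by
        rw [← hcan, ← hcan']
        exact can_eq ⟨e, he0, fun a b => (he a b).1⟩
      refine ⟨e, ⟨he0, fun a b => by rw [(he a b).1, hpq]⟩, ?_⟩
      apply Prod.ext
      · funext a b
        simp only [tr]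
        rw [(he _ _).1]; simp
      · funext a b
        simp only [tr]
        rw [(he _ _).2]; simp
    calc ((PP r).filter (fun q => Φ q = Φ p)).card
        = (((PP r).filter (fun q => Φ q = Φ p) : Finset (XX r)) : Set (XX r)).ncard := by
          rw [Set.ncard_coe_finset]
      _ ≤ ((fun e => tr e p) '' (AutT p.1)).ncard := Set.ncard_le_ncard hsub (Set.toFinite _)
      _ ≤ (AutT p.1).ncard := Set.ncard_image_le (Set.toFinite _)
      _ ≤ _ := card_autT E
  refine h1.trans (Nat.mul_le_mul_left _ ?_)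
  rw [← Set.ncard_coe_finset]
  apply Set.ncard_le_ncard _ (Set.toFinite _)
  intro C hC
  rw [mem_coe, mem_image] at hC
  obtain ⟨p, hp, rfl⟩ := hC
  unfold PP at hp
  rw [mem_filter] at hp
  exact ⟨p, hp.2.1, rfl⟩

theorem class_eq {r : ℕ} {p q : XX r} (h : Iso p q) :
    {s : XX r | QF s ∧ Iso p s} = {s | QF s ∧ Iso q s} := by
  ext s
  constructor
  · rintro ⟨h1, h2⟩
    exact ⟨h1, h.symm.trans h2⟩
  · rintro ⟨h1, h2⟩
    exact ⟨h1, h.trans h2⟩

open Classical in
theorem card_QC_le (r : ℕ) : (QC r).ncard ≤ (r + 1) ^ 4 + (PQ r).card := by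
  set Φ : XX r → Set (XX r) := fun p => {q | QF q ∧ Iso p q} with hΦ
  let Wt : Set (XX r) → ℕ → Prop := fun C n => ∃ (p : XX r) (K : Type) (_ : Field K)
    (_ : Finite K) (G : Subgroup Kˣ) (f : K → Fin (r+1)), QW p K G f ∧ Nat.card K = n ∧ C = Φ p
  set QS : Set (Set (XX r)) := {C | ∃ n < (r + 1) ^ 4, Wt C n} with hQS
  have hsub : QC r ⊆ QS ∪ (((PQ r).image Φ : Finset (Set (XX r))) : Set (Set (XX r))) := by
    rintro C ⟨p, ⟨K, _, G, f, W⟩, rfl⟩
    rcases GG_or_small W with hGG | ⟨hfin, hlt⟩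
    · right
      rw [mem_coe, mem_image]
      obtain ⟨e, h0, h⟩ := can_rel p.1
      refine ⟨tr e p, ?_, ?_⟩
      · unfold PQ
        rw [mem_filter]
        refine ⟨mem_univ _, ⟨K, _, G, _, W.tr e h0, hGG⟩, ?_⟩
        have h1 : (tr e p).1 = can p.1 := by
          funext a b
          simp only [tr]
          rw [h]; simp
        rw [h1]
        exact (can_eq ⟨e, h0, h⟩).symm
      · exact (class_eq (iso_tr e p)).symm
    · left
      exact ⟨Nat.card K, hlt, p, K, _, hfin, G, f, W, rfl, rfl⟩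
  have hQS' : QS.ncard ≤ (r + 1) ^ 4 := by
    have : ∀ C ∈ QS, ∃ n, n < (r + 1) ^ 4 ∧ Wt C n := fun C hC => by
      obtain ⟨n, hn, h⟩ := hC
      exact ⟨n, hn, h⟩
    choose! F hF1 hF2 using this
    have hinj : Set.InjOn F QS := by
      intro C hC C' hC' h
      obtain ⟨p, K, _, _, G, f, W, hn, rfl⟩ := hF2 C hC
      obtain ⟨p', K', _, _, G', f', W', hn', rfl⟩ := hF2 C' hC'
      exact class_eq (iso_of_card_eq W W' (by rw [hn, hn', h]))
    calc QS.ncard ≤ ((Finset.range ((r + 1) ^ 4) : Finset ℕ) : Set ℕ).ncard :=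
          Set.ncard_le_ncard_of_injOn F (fun C hC => by
            rw [mem_coe, mem_range]; exact hF1 C hC) hinj (Finset.finite_toSet _)
      _ = (r + 1) ^ 4 := by rw [Set.ncard_coe_finset, card_range]
  calc (QC r).ncard ≤ (QS ∪ (((PQ r).image Φ : Finset (Set (XX r))) : Set (Set (XX r)))).ncard :=
        Set.ncard_le_ncard hsub (Set.toFinite _)
    _ ≤ QS.ncard + (((PQ r).image Φ : Finset (Set (XX r))) : Set (Set (XX r))).ncard :=
        Set.ncard_union_le _ _
    _ ≤ (r + 1) ^ 4 + (PQ r).card := by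
        rw [Set.ncard_coe_finset]
        exact Nat.add_le_add hQS' card_image_le

open Classical in
/-- The final inequalities between the numbers of classes. -/
theorem main_ineq {r : ℕ} (h1 : 1 ≤ r)
    (hr : ((r : ℕ) : ℝ) ^ 4 * (3 / 4 : ℝ) ^ (r / 24) ≤ 1 / 2) :
    2 ^ (r / 6) * (QC r).ncard ≤
      4 * (r + 1) ^ 4 * (r + 1) ^ (Nat.log 2 r) * (HC r).ncard := by
  obtain ⟨m, hm, hc⟩ := exists_tab r h1
  obtain ⟨N, hN1, hN2, -⟩ := fiber_PP hm hc hr
  have e1 := card_PQ_le hr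
  have e2 := card_PP_le r
  have e3 := card_QC_le r
  set A := (r + 1) ^ (Nat.log 2 r)
  set T := 2 ^ (r / 6)
  set h := (HC r).ncard
  have e4 : T ≤ 2 * (PP r).card := by
    refine hN1.trans (hN2.trans (Nat.mul_le_mul_left _ (card_le_card (filter_subset _ _))))
  calc T * (QC r).ncard ≤ T * ((r + 1) ^ 4 + (PQ r).card) := Nat.mul_le_mul_left _ e3
    _ = (r + 1) ^ 4 * T + T * (PQ r).card := by ring
    _ ≤ (r + 1) ^ 4 * (2 * (PP r).card) + 2 * r * (PP r).card :=
        Nat.add_le_add (Nat.mul_le_mul_left _ e4) e1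
    _ = (2 * (r + 1) ^ 4 + 2 * r) * (PP r).card := by ring
    _ ≤ (4 * (r + 1) ^ 4) * (A * h) := by
        apply Nat.mul_le_mul _ e2
        have : r ≤ (r + 1) ^ 4 := by
          calc r ≤ r + 1 := by omega
            _ ≤ (r + 1) ^ 4 := Nat.le_self_pow (by norm_num) _
        omega
    _ = _ := by ring

theorem six_le (L : ℕ) (hL : 10 ≤ L) : 6 * ((L + 1) * (L + 5)) ≤ 2 ^ L := by
  induction L, hL using Nat.le_induction with
  | base => norm_num
  | succ n hn ih =>
    rw [pow_succ]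
    nlinarith

theorem growth {r : ℕ} (hr : 2 ^ 10 ≤ r) :
    (r + 1) ^ 4 * (r + 1) ^ (Nat.log 2 r) * r ≤ 2 ^ (r / 6) := by
  set L := Nat.log 2 r with hL
  have hr0 : r ≠ 0 := by
    have : 0 < 2 ^ 10 := by norm_num
    omega
  have hL10 : 10 ≤ L := Nat.le_log_of_pow_le (by norm_num) hr
  have h1 : r < 2 ^ (L + 1) := Nat.lt_pow_succ_log_self (by norm_num) r
  have h2 : 2 ^ L ≤ r := Nat.pow_log_le_self 2 hr0
  have h3 := six_le L hL10
  calc (r + 1) ^ 4 * (r + 1) ^ L * r ≤ (2 ^ (L + 1)) ^ 4 * (2 ^ (L + 1)) ^ L * 2 ^ (L + 1) := by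
        apply Nat.mul_le_mul _ h1.le
        exact Nat.mul_le_mul (Nat.pow_le_pow_left h1 4) (Nat.pow_le_pow_left h1 L)
    _ = 2 ^ ((L + 1) * (L + 5)) := by
        rw [← pow_mul, ← pow_mul, ← pow_add, ← pow_add]
        congr 1; ring
    _ ≤ 2 ^ (r / 6) := by
        apply Nat.pow_le_pow_right (by norm_num)
        omega

theorem eventually_small :
    ∀ᶠ r : ℕ in Filter.atTop, ((r : ℕ) : ℝ) ^ 4 * (3 / 4 : ℝ) ^ (r / 24) ≤ 1 / 2 := by
  have h1 : Filter.Tendsto (fun n : ℕ => (n : ℝ) ^ 4 * (3 / 4 : ℝ) ^ n) Filter.atTop (nhds 0) :=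
    tendsto_pow_const_mul_const_pow_of_abs_lt_one 4 (by rw [abs_of_pos] <;> norm_num)
  have h2 : ∀ᶠ n : ℕ in Filter.atTop, (n : ℝ) ^ 4 * (3 / 4 : ℝ) ^ n ≤ 1 / (2 * 48 ^ 4) :=
    (h1.eventually (gt_mem_nhds (by norm_num : (0 : ℝ) < 1 / (2 * 48 ^ 4)))).mono
      (fun n hn => hn.le)
  have h3 : Filter.Tendsto (fun r : ℕ => r / 24) Filter.atTop Filter.atTop :=
    Nat.tendsto_div_const_atTop (by norm_num)
  filter_upwards [h3.eventually h2, Filter.eventually_ge_atTop 24] with r hr hr'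
  have h4 : (r : ℝ) ≤ 48 * ((r / 24 : ℕ) : ℝ) := by
    have : r ≤ 48 * (r / 24) := by omega
    exact_mod_cast this
  calc (r : ℝ) ^ 4 * (3 / 4 : ℝ) ^ (r / 24)
      ≤ (48 * ((r / 24 : ℕ) : ℝ)) ^ 4 * (3 / 4 : ℝ) ^ (r / 24) := by
        apply mul_le_mul_of_nonneg_right _ (by positivity)
        exact pow_le_pow_left₀ (by positivity) h4 4
    _ = 48 ^ 4 * (((r / 24 : ℕ) : ℝ) ^ 4 * (3 / 4 : ℝ) ^ (r / 24)) := by ring
    _ ≤ 48 ^ 4 * (1 / (2 * 48 ^ 4)) := by
        apply mul_le_mul_of_nonneg_left hr (by positivity)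
    _ = 1 / 2 := by norm_num

theorem tendsto_ratio :
    Filter.Tendsto (fun r : ℕ => ((QC r).ncard : ℝ) / ((HC r).ncard : ℝ))
      Filter.atTop (nhds 0) := by
  have h4 : Filter.Tendsto (fun r : ℕ => (4 : ℝ) / (r : ℝ)) Filter.atTop (nhds 0) :=
    tendsto_const_div_atTop_nhds_zero_nat 4
  refine squeeze_zero' (Filter.Eventually.of_forall (fun r => by positivity)) ?_ h4
  filter_upwards [eventually_small, Filter.eventually_ge_atTop (2 ^ 10)] with r hr hr'
  have hr1 : 1 ≤ r := le_trans (by norm_num) hr'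
  have e1 := main_ineq hr1 hr
  have e2 := growth hr'
  have hrpos : (0 : ℝ) < r := by exact_mod_cast hr1
  rcases Nat.eq_zero_or_pos (HC r).ncard with h0 | hpos
  · rw [h0]
    simp only [Nat.cast_zero, div_zero]
    positivity
  · have hposR : (0 : ℝ) < (HC r).ncard := by exact_mod_cast hpos
    rw [div_le_div_iff₀ hposR hrpos]
    have e3 : 2 ^ (r / 6) * ((QC r).ncard * r) ≤ 2 ^ (r / 6) * (4 * (HC r).ncard) := by
      calc 2 ^ (r / 6) * ((QC r).ncard * r) = 2 ^ (r / 6) * (QC r).ncard * r := by ring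
        _ ≤ 4 * (r + 1) ^ 4 * (r + 1) ^ (Nat.log 2 r) * (HC r).ncard * r :=
            Nat.mul_le_mul_right _ e1
        _ = ((r + 1) ^ 4 * (r + 1) ^ (Nat.log 2 r) * r) * (4 * (HC r).ncard) := by ring
        _ ≤ 2 ^ (r / 6) * (4 * (HC r).ncard) := Nat.mul_le_mul_right _ e2
    have e4 := Nat.le_of_mul_le_mul_left e3 (by positivity)
    exact_mod_cast e4

end Pool.Agent.R661
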