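import Mathlib

/-!
Digraphs of large minimum in-degree without small 3-kernels.
-/

namespace Pool.Agent.R661.QKer

/-- The in-degree of `v` in the digraph with arc relation `A` (`A u v`: an arc from `u` to `v`). -/
noncomputable def inDegree {V : Type} (A : V → V → Prop) (v : V) : ℕ := {u | A u v}.ncard

/-- The minimum in-degree of the digraph equals `d`. -/
def HasMinInDegree {V : Type} (A : V → V → Prop) (d : ℕ) : Prop :=
  (∀ v, d ≤ inDegree A v) ∧ ∃ v, inDegree A v = d

/-- `v` is the endpoint of a directed path (distinct vertices) of length at most `q`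
starting at `u`. -/
def Reaches {V : Type} (A : V → V → Prop) (q : ℕ) (u v : V) : Prop :=
  ∃ l : ℕ, l ≤ q ∧ ∃ p : Fin (l + 1) → V, Function.Injective p ∧ p 0 = u ∧ p (Fin.last l) = v ∧
    ∀ i : Fin l, A (p i.castSucc) (p i.succ)

/-- `Q` is a `q`-kernel of the digraph. -/
def IsQKernel {V : Type} (A : V → V → Prop) (q : ℕ) (Q : Finset V) : Prop :=
  (∀ u ∈ Q, ∀ v ∈ Q, ¬ A u v) ∧ ∀ v, ∃ u ∈ Q, Reaches A q u v

/-- The set of reals `c` with the property in the definition of the constant for `d`, `q`: every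
finite loopless digraph of minimum in-degree `d` has a `q`-kernel with at most `c * |V|`
vertices. -/
def Good (d q : ℕ) : Set ℝ :=
  {c | ∀ (V : Type) (_ : Fintype V) (A : V → V → Prop), (∀ v, ¬ A v v) → HasMinInDegree A d →
    ∃ Q : Finset V, IsQKernel A q Q ∧ (Q.card : ℝ) ≤ c * (Fintype.card V : ℝ)}

theorem reaches_three {V : Type} {A : V → V → Prop} {u v : V} (h : Reaches A 3 u v) :
    u = v ∨ A u v ∨ (∃ x, A u x ∧ A x v) ∨ (∃ y x, A u y ∧ A y x ∧ A x v) := by
  obtain ⟨l, hl, p, -, h0, h1, hp⟩ := h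
  interval_cases l
  · left
    rw [← h0, ← h1]; rfl
  · right; left
    have := hp 0
    rw [← h0, ← h1]; exact this
  · right; right; left
    refine ⟨p 1, ?_, ?_⟩
    · rw [← h0]; exact hp 0
    · rw [← h1]; exact hp 1
  · right; right; right
    refine ⟨p 1, p 2, ?_, ?_, ?_⟩
    · rw [← h0]; exact hp 0
    · exact hp 1
    · rw [← h1]; exact hp 2

section Construction

variable (s w d : ℕ)

/-- Index type of the deepest vertices: the `s`-subsets of a set with `2 s` elements. -/
abbrev Sub : Type := {B : Finset (Fin (2 * s)) // B.card = s}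

/-- The vertices of the digraph. -/
abbrev Vx : Type := Fin 3 × (Fin d ⊕ ((Fin (2 * s) × Fin w) ⊕ Sub s))

/-- The arcs. -/
def adj : Vx s w d → Vx s w d → Prop
  | (i, Sum.inl x), (j, Sum.inl y) => (i = j ∧ x ≠ y) ∨ j = i + 1
  | (i, Sum.inl _), (j, Sum.inr (Sum.inl _)) => i = j
  | (i, Sum.inr (Sum.inl c)), (j, Sum.inr (Sum.inr B)) => i = j ∧ c.1 ∉ B.1
  | _, _ => False

theorem adj_irrefl (v : Vx s w d) : ¬ adj s w d v v := by
  rcases v with ⟨i, x | c | B⟩
  · simp only [adj]
    rintro (h | h)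
    · exact h.2 rfl
    · revert h; revert i; decide
  · simp [adj]
  · simp [adj]

theorem adj_inl_iff (u : Vx s w d) (j : Fin 3) (y : Fin d) :
    adj s w d u (j, Sum.inl y) → ∃ i x, u = (i, Sum.inl x) ∧ ((i = j ∧ x ≠ y) ∨ j = i + 1) := by
  rcases u with ⟨i, x | c | B⟩
  · intro h; exact ⟨i, x, rfl, h⟩
  · intro h; exact h.elim
  · intro h; exact h.elim

theorem adj_mid_iff (u : Vx s w d) (j : Fin 3) (c : Fin (2 * s) × Fin w) :
    adj s w d u (j, Sum.inr (Sum.inl c)) ↔ ∃ x, u = (j, Sum.inl x) := by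
  rcases u with ⟨i, x | c' | B⟩
  · constructor
    · intro h
      have h' : i = j := h
      exact ⟨x, by rw [h']⟩
    · rintro ⟨y, hy⟩
      have : i = j := congrArg Prod.fst hy
      exact this
  · constructor
    · intro h; exact h.elim
    · rintro ⟨y, hy⟩
      have := congrArg Prod.snd hy
      simp at this
  · constructor
    · intro h; exact h.elim
    · rintro ⟨y, hy⟩
      have := congrArg Prod.snd hy
      simp at this

theorem adj_deep_iff (u : Vx s w d) (j : Fin 3) (B : Sub s) :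
    adj s w d u (j, Sum.inr (Sum.inr B)) ↔
      ∃ c : Fin (2 * s) × Fin w, u = (j, Sum.inr (Sum.inl c)) ∧ c.1 ∉ B.1 := by
  rcases u with ⟨i, x | c' | B'⟩
  · constructor
    · intro h; exact h.elim
    · rintro ⟨y, hy, -⟩
      have := congrArg Prod.snd hy
      simp at this
  · constructor
    · intro h
      have h' : i = j ∧ c'.1 ∉ B.1 := h
      exact ⟨c', by rw [h'.1], h'.2⟩
    · rintro ⟨y, hy, hy2⟩
      have h1 : i = j := congrArg Prod.fst hy
      have h2 : c' = y := by
        have := congrArg Prod.snd hy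
        simpa using this
      subst h2
      exact ⟨h1, hy2⟩
  · constructor
    · intro h; exact h.elim
    · rintro ⟨y, hy, -⟩
      have := congrArg Prod.snd hy
      simp at this

variable {s w d}

theorem le_inDegree_of {V α : Type} [Fintype V] [Fintype α] {A : V → V → Prop} {v : V} (f : α → V)
    (hf : Function.Injective f) (h : ∀ a, A (f a) v) : Fintype.card α ≤ inDegree A v := by
  classical
  unfold inDegree
  rw [← Nat.card_eq_fintype_card, ← Set.ncard_univ, ← Set.ncard_image_of_injective _ hf]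
  apply Set.ncard_le_ncard _ (Set.toFinite _)
  rintro _ ⟨a, -, rfl⟩
  exact h a

theorem inDegree_mid (j : Fin 3) (c : Fin (2 * s) × Fin w) :
    inDegree (adj s w d) (j, Sum.inr (Sum.inl c)) = d := by
  unfold inDegree
  have : {u | adj s w d u (j, Sum.inr (Sum.inl c))} =
      (fun x : Fin d => ((j, Sum.inl x) : Vx s w d)) '' Set.univ := by
    ext u
    simp only [Set.mem_ofPred_eq, Set.image_univ, Set.mem_range]
    rw [adj_mid_iff]
    constructor
    · rintro ⟨x, rfl⟩; exact ⟨x, rfl⟩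
    · rintro ⟨x, rfl⟩; exact ⟨x, rfl⟩
  rw [this, Set.ncard_image_of_injective, Set.ncard_univ, Nat.card_eq_fintype_card,
    Fintype.card_fin]
  intro x y hxy
  have := congrArg Prod.snd hxy
  simpa using this

theorem le_inDegree_top (j : Fin 3) (y : Fin d) :
    d ≤ inDegree (adj s w d) (j, Sum.inl y) := by
  have := le_inDegree_of (A := adj s w d) (v := (j, Sum.inl y)) (α := Fin d)
    (fun x => (j - 1, Sum.inl x)) (by
      intro a b hab
      have := congrArg Prod.snd hab
      simpa using this) (by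
      intro a
      right
      exact (sub_add_cancel j 1).symm)
  simpa using this

theorem le_inDegree_deep (hsw : d ≤ s * w) (j : Fin 3) (B : Sub s) :
    d ≤ inDegree (adj s w d) (j, Sum.inr (Sum.inr B)) := by
  have h := le_inDegree_of (A := adj s w d) (v := (j, Sum.inr (Sum.inr B)))
    (α := {c : Fin (2 * s) // c ∉ B.1} × Fin w)
    (fun x => (j, Sum.inr (Sum.inl (x.1.1, x.2)))) (by
      rintro ⟨⟨a, ha⟩, k⟩ ⟨⟨b, hb⟩, m⟩ hab
      have := congrArg Prod.snd hab
      simp only [Sum.inr.injEq, Sum.inl.injEq, Prod.mk.injEq] at this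
      simp [this.1, this.2]) (by
      intro a
      exact ⟨rfl, a.1.2⟩)
  have hc : Fintype.card {c : Fin (2 * s) // c ∉ B.1} = s := by
    rw [Fintype.card_subtype_compl, Fintype.card_fin, Fintype.card_coe, B.2]
    omega
  rw [Fintype.card_prod, hc, Fintype.card_fin] at h
  omega

theorem hasMin (hs : 1 ≤ s) (hw : 1 ≤ w) (hsw : d ≤ s * w) :
    HasMinInDegree (adj s w d) d := by
  constructor
  · rintro ⟨j, y | c | B⟩
    · exact le_inDegree_top j y
    · exact (inDegree_mid j c).ge
    · exact le_inDegree_deep hsw j B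
  · exact ⟨(0, Sum.inr (Sum.inl (⟨0, by omega⟩, ⟨0, by omega⟩))), inDegree_mid _ _⟩

theorem exists_not_mem (hs : 1 ≤ s) (B : Sub s) : ∃ c : Fin (2 * s), c ∉ B.1 := by
  by_contra hcon
  push Not at hcon
  have : B.1 = Finset.univ := Finset.eq_univ_iff_forall.2 hcon
  have h2 := B.2
  rw [this, Finset.card_univ, Fintype.card_fin] at h2
  omega

/-- auxiliary: a coordinate attached to a vertex outside the top part. -/
noncomputable def coord (hs : 1 ≤ s) : Vx s w d → Fin (2 * s)
  | (_, Sum.inl _) => ⟨0, by omega⟩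
  | (_, Sum.inr (Sum.inl c)) => c.1
  | (_, Sum.inr (Sum.inr B)) => (exists_not_mem hs B).choose

theorem coord_deep (hs : 1 ≤ s) (j : Fin 3) (B : Sub s) :
    coord (w := w) (d := d) hs (j, Sum.inr (Sum.inr B)) ∉ B.1 :=
  (exists_not_mem hs B).choose_spec

theorem fin3 (a b : Fin 3) (h : a ≠ b) : a = b + 1 ∨ b = a + 1 := by
  revert a b; decide

theorem kernel_large (hs : 1 ≤ s) (hd : 1 ≤ d) (Q : Finset (Vx s w d))
    (hQ : IsQKernel (adj s w d) 3 Q) : s + 2 ≤ Q.card := by
  classical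
  obtain ⟨hind, hcov⟩ := hQ
  -- a top vertex in Q
  have h1 : ∃ j x, ((j, Sum.inl x) : Vx s w d) ∈ Q := by
    obtain ⟨u, hu, hr⟩ := hcov (0, Sum.inl ⟨0, by omega⟩)
    rcases reaches_three hr with h | h | ⟨x, hux, hxv⟩ | ⟨y, x, huy, hyx, hxv⟩
    · exact ⟨0, _, h ▸ hu⟩
    · obtain ⟨i, x, rfl, -⟩ := adj_inl_iff s w d _ _ _ h
      exact ⟨i, x, hu⟩
    · obtain ⟨i, x', rfl, -⟩ := adj_inl_iff s w d _ _ _ hxv
      obtain ⟨i2, x2, rfl, -⟩ := adj_inl_iff s w d _ _ _ hux
      exact ⟨i2, x2, hu⟩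
    · obtain ⟨i, x', rfl, -⟩ := adj_inl_iff s w d _ _ _ hxv
      obtain ⟨i2, x2, rfl, -⟩ := adj_inl_iff s w d _ _ _ hyx
      obtain ⟨i3, x3, rfl, -⟩ := adj_inl_iff s w d _ _ _ huy
      exact ⟨i3, x3, hu⟩
  obtain ⟨j, x, hj⟩ := h1
  have h2 : ∀ j' x', ((j', Sum.inl x') : Vx s w d) ∈ Q → j' = j := by
    intro j' x' hj'
    by_contra hne
    have h3 : j' = j + 1 ∨ j = j' + 1 := fin3 _ _ hne
    rcases h3 with h3 | h3
    · exact hind _ hj _ hj' (Or.inr h3)
    · exact hind _ hj' _ hj (Or.inr h3)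
  -- the deep vertices in the block `j + 2`
  have h3 : ∀ B : Sub s, ((j + 2, Sum.inr (Sum.inr B)) : Vx s w d) ∈ Q ∨
      ∃ c : Fin (2 * s) × Fin w, ((j + 2, Sum.inr (Sum.inl c)) : Vx s w d) ∈ Q ∧ c.1 ∉ B.1 := by
    intro B
    obtain ⟨u, hu, hr⟩ := hcov (j + 2, Sum.inr (Sum.inr B))
    rcases reaches_three hr with h | h | ⟨x, hux, hxv⟩ | ⟨y, x, huy, hyx, hxv⟩
    · left; exact h ▸ hu
    · right
      rw [adj_deep_iff] at h
      obtain ⟨c, rfl, hc⟩ := h
      exact ⟨c, hu, hc⟩
    · exfalso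
      rw [adj_deep_iff] at hxv
      obtain ⟨c, rfl, hc⟩ := hxv
      rw [adj_mid_iff] at hux
      obtain ⟨z, rfl⟩ := hux
      have := h2 _ _ hu
      revert this; clear * -
      revert j; decide
    · exfalso
      rw [adj_deep_iff] at hxv
      obtain ⟨c, rfl, hc⟩ := hxv
      rw [adj_mid_iff] at hyx
      obtain ⟨z, rfl⟩ := hyx
      obtain ⟨i3, x3, rfl, h4⟩ := adj_inl_iff s w d _ _ _ huy
      have h5 := h2 _ _ hu
      subst h5
      rcases h4 with h4 | h4
      · have := h4.1
        revert this; clear * -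
        revert i3; decide
      · revert h4; clear * -
        revert i3; decide
  -- the part of `Q` outside the top part
  set Q' : Finset (Vx s w d) := Q.filter (fun v => ∀ x : Fin d, v.2 ≠ Sum.inl x) with hQ'
  have h4 : s + 1 ≤ Q'.card := by
    by_contra hlt
    push Not at hlt
    have hS : (Q'.image (coord hs)).card ≤ s := le_trans Finset.card_image_le (by omega)
    obtain ⟨B, hSB, hB⟩ := Finset.exists_superset_card_eq hS (by
      rw [Fintype.card_fin]; omega)
    rcases h3 ⟨B, hB⟩ with h | ⟨c, hc, hcB⟩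
    · have hm : ((j + 2, Sum.inr (Sum.inr ⟨B, hB⟩)) : Vx s w d) ∈ Q' := by
        rw [hQ', Finset.mem_filter]
        exact ⟨h, by intro x; simp⟩
      exact coord_deep (w := w) (d := d) hs (j + 2) ⟨B, hB⟩ (hSB (Finset.mem_image_of_mem _ hm))
    · have hm : ((j + 2, Sum.inr (Sum.inl c)) : Vx s w d) ∈ Q' := by
        rw [hQ', Finset.mem_filter]
        exact ⟨hc, by intro x; simp⟩
      exact hcB (hSB (Finset.mem_image_of_mem (coord hs) hm))
  have h5 : Q'.card < Q.card := by
    apply Finset.card_lt_card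
    rw [Finset.ssubset_iff_of_subset (Finset.filter_subset _ _)]
    refine ⟨_, hj, ?_⟩
    rw [Finset.mem_filter]
    push Not
    intro _
    exact ⟨x, rfl⟩
  omega

theorem card_Vx : Fintype.card (Vx s w d) = 3 * (d + (2 * s * w + (2 * s).choose s)) := by
  rw [Fintype.card_prod, Fintype.card_sum, Fintype.card_sum, Fintype.card_prod, Fintype.card_fin,
    Fintype.card_fin, Fintype.card_fin, Fintype.card_fin, Fintype.card_finset_len,
    Fintype.card_fin]

theorem main_bound (s d : ℕ) (hs : 1 ≤ s) (hd : 4 ^ s ≤ d) :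
    ∃ (V : Type) (_ : Fintype V) (A : V → V → Prop), (∀ v, ¬ A v v) ∧ HasMinInDegree A d ∧
      Fintype.card V ≤ 15 * d ∧ ∀ Q : Finset V, IsQKernel A 3 Q → s + 2 ≤ Q.card := by
  have h2s : 2 * s ≤ 4 ^ s := by
    clear hd hs
    induction s with
    | zero => simp
    | succ n ih =>
      rw [pow_succ]
      have : 1 ≤ 4 ^ n := Nat.one_le_pow _ _ (by norm_num)
      omega
  have hd1 : 1 ≤ d := le_trans (Nat.one_le_pow _ _ (by norm_num)) hd
  set w := (d + s - 1) / s with hw
  have hw1 : s * w ≤ d + s - 1 := by rw [hw]; exact Nat.mul_div_le _ _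
  have hw2 : d ≤ s * w := by
    have := Nat.lt_mul_div_succ (d + s - 1) (show 0 < s by omega)
    rw [← hw] at this
    have e : s * (w + 1) = s * w + s := by ring
    rw [e] at this
    omega
  have hw3 : 1 ≤ w := by
    rcases Nat.eq_zero_or_pos w with h | h
    · rw [h] at hw2; omega
    · exact h
  refine ⟨Vx s w d, inferInstance, adj s w d, adj_irrefl s w d, hasMin hs hw3 hw2, ?_, ?_⟩
  · rw [card_Vx]
    have hch : (2 * s).choose s ≤ 4 ^ s := by
      have := Nat.choose_le_two_pow (2 * s) s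
      rw [pow_mul] at this
      norm_num at this
      exact this
    have e : 2 * s * w = 2 * (s * w) := by ring
    rw [e]
    omega
  · intro Q hQ
    exact kernel_large hs hd1 Q hQ

end Construction

/-- Every admissible constant for minimum in-degree `d ≥ 4` and `q = 3` is at least
`(1 + log_4 d) / (15 d)`. -/
theorem good_lower (d : ℕ) (hd : 4 ≤ d) (c : ℝ) (hc : c ∈ Good d 3) :
    (1 + Real.logb 4 d) / (15 * d) ≤ c := by
  set s := Nat.log 4 d with hs
  have hs1 : 1 ≤ s := by
    rw [hs]; exact (Nat.one_le_iff_ne_zero.2 (Nat.log_pos (by norm_num) hd).ne')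
  have h4 : 4 ^ s ≤ d := Nat.pow_log_le_self 4 (by omega)
  have hlt : d < 4 ^ (s + 1) := Nat.lt_pow_succ_log_self (by norm_num) d
  have hlog : Real.logb 4 d ≤ s + 1 := by
    rw [Real.logb_le_iff_le_rpow (by norm_num) (by positivity)]
    have : (d : ℝ) ≤ (4 : ℝ) ^ (s + 1) := by exact_mod_cast hlt.le
    calc (d : ℝ) ≤ (4 : ℝ) ^ (s + 1) := this
      _ = (4 : ℝ) ^ ((s : ℝ) + 1) := by
        rw [← Real.rpow_natCast]; push_cast; rfl
  obtain ⟨V, hV, A, hA, hmin, hcard, hker⟩ := main_bound s d hs1 h4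
  obtain ⟨Q, hQ, hQc⟩ := hc V hV A hA hmin
  have hQ2 := hker Q hQ
  have hdpos : (0 : ℝ) < d := by positivity
  have hVpos : (0 : ℝ) < (Fintype.card V : ℝ) := by
    obtain ⟨v, -⟩ := hmin.2
    have : 0 < Fintype.card V := Fintype.card_pos_iff.2 ⟨v⟩
    exact_mod_cast this
  have hcpos : 0 ≤ c := by
    by_contra hneg
    push Not at hneg
    have : c * (Fintype.card V : ℝ) < 0 := mul_neg_of_neg_of_pos hneg hVpos
    have h0 : (0 : ℝ) ≤ Q.card := by positivity
    linarith
  rw [div_le_iff₀ (by positivity)]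
  have hcardR : (Fintype.card V : ℝ) ≤ 15 * d := by exact_mod_cast hcard
  have hQ2R : (s : ℝ) + 2 ≤ Q.card := by exact_mod_cast hQ2
  have := mul_le_mul_of_nonneg_left hcardR hcpos
  linarith

end Pool.Agent.R661.QKer
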