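import Pool.Agent.R693.SU.Stm

set_option autoImplicit false

open Matrix

namespace Pool.Agent.R661.SUSPL

open Pool.Agent.R693.SU

abbrev M2 := Matrix (Fin 2) (Fin 2) ℂ

def colm (w p : Fin 2 → ℂ) : M2 := Matrix.of fun i j => if j = 0 then w i else p i

theorem mulA (x : M2) (w p : Fin 2 → ℂ) (X : Matrix (Fin 2) (Fin 2) ℚ)
    (h0 : x *ᵥ w = ((X 0 0 : ℚ) : ℂ) • w + ((X 1 0 : ℚ) : ℂ) • p)
    (h1 : x *ᵥ p = ((X 0 1 : ℚ) : ℂ) • w + ((X 1 1 : ℚ) : ℂ) • p) :
    x * colm w p = colm w p * X.map (algebraMap ℚ ℂ) := by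
  ext i j
  have e0 := congrFun h0 i
  have e1 := congrFun h1 i
  simp only [mulVec, dotProduct, Fin.sum_univ_two, Pi.add_apply, Pi.smul_apply,
    smul_eq_mul] at e0 e1
  fin_cases j
  · simp only [Matrix.mul_apply, Fin.sum_univ_two, colm, Matrix.of_apply, Matrix.map_apply,
      eq_ratCast]
    simp
    linear_combination e0
  · simp only [Matrix.mul_apply, Fin.sum_univ_two, colm, Matrix.of_apply, Matrix.map_apply,
      eq_ratCast]
    simp
    linear_combination e1

theorem key (x y A : M2) (X Y : Matrix (Fin 2) (Fin 2) ℚ) (hA : A.det ≠ 0)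
    (hx : x * A = A * X.map (algebraMap ℚ ℂ)) (hy : y * A = A * Y.map (algebraMap ℚ ℂ)) :
    ∃ A : GL (Fin 2) ℂ, ∀ α β γ δ : ℚ, ∃ R : Matrix (Fin 2) (Fin 2) ℚ,
      (A⁻¹ : GL (Fin 2) ℂ).val * qel x y α β γ δ * A.val = R.map (algebraMap ℚ ℂ) := by
  let B : GL (Fin 2) ℂ := Matrix.GeneralLinearGroup.mkOfDetNeZero A hA
  have hB : B.val = A := rfl
  refine ⟨B, fun α β γ δ => ⟨α • 1 + β • X + γ • Y + δ • (X * Y), ?_⟩⟩
  have h1 : qel x y α β γ δ * A = A * ((α : ℂ) • 1 + (β : ℂ) • X.map (algebraMap ℚ ℂ) +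
      (γ : ℂ) • Y.map (algebraMap ℚ ℂ) +
      (δ : ℂ) • (X.map (algebraMap ℚ ℂ) * Y.map (algebraMap ℚ ℂ))) := by
    unfold qel
    rw [add_mul, add_mul, add_mul, smul_mul_assoc, smul_mul_assoc, smul_mul_assoc, smul_mul_assoc,
      one_mul, hx, hy, Matrix.mul_assoc x y A, hy, ← Matrix.mul_assoc x, hx, mul_add, mul_add,
      mul_add, mul_smul_comm, mul_smul_comm, mul_smul_comm, mul_smul_comm, mul_one,
      Matrix.mul_assoc]
  rw [Matrix.mul_assoc, hB, h1, ← Matrix.mul_assoc]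
  have h2 : (B⁻¹ : GL (Fin 2) ℂ).val * A = 1 := by
    rw [← hB]
    exact Units.inv_mul B
  rw [h2, Matrix.one_mul]
  ext i j
  simp only [Matrix.add_apply, Matrix.smul_apply, Matrix.map_apply, Matrix.mul_apply,
    Fin.sum_univ_two, smul_eq_mul, eq_ratCast, Matrix.one_apply]
  split_ifs <;> push_cast <;> ring

theorem noeig {a b : ℚ} {x y : M2} (h : QB a b x y) (w : Fin 2 → ℂ) (c d : ℂ)
    (hx : x *ᵥ w = c • w) (hy : y *ᵥ w = d • w) : w = 0 := by
  by_contra hw
  have inj : ∀ u v : ℂ, u • w = v • w → u = v := fun u v huv => smul_left_injective ℂ hw huv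
  have h1 : (a : ℂ) = c * c := by
    apply inj
    have := congrArg (fun m : M2 => m *ᵥ w) h.hx
    simp only [← mulVec_mulVec, hx, mulVec_smul, smul_mulVec, one_mulVec, smul_smul] at this
    exact this.symm
  have h2 : (b : ℂ) = d * d := by
    apply inj
    have := congrArg (fun m : M2 => m *ᵥ w) h.hy
    simp only [← mulVec_mulVec, hy, mulVec_smul, smul_mulVec, one_mulVec, smul_smul] at this
    exact this.symm
  have h3 : d * c = -(c * d) := by
    apply inj
    have := congrArg (fun m : M2 => m *ᵥ w) h.hxy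
    simp only [← mulVec_mulVec, hx, hy, mulVec_smul, neg_mulVec, smul_smul] at this
    rw [this, neg_smul]
  have ha : (a : ℂ) ≠ 0 := by exact_mod_cast h.ha
  have hb : (b : ℂ) ≠ 0 := by exact_mod_cast h.hb
  have hc : c ≠ 0 := fun e => ha (by rw [h1, e, zero_mul])
  have hd : d ≠ 0 := fun e => hb (by rw [h2, e, zero_mul])
  have h4 : 2 * (c * d) = 0 := by linear_combination h3
  rcases mul_eq_zero.1 h4 with h5 | h5
  · norm_num at h5
  · exact mul_ne_zero hc hd h5

theorem det_colm (w p : Fin 2 → ℂ) (hw : w ≠ 0) (h : ∀ c : ℂ, p ≠ c • w) : (colm w p).det ≠ 0 := by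
  intro hdet
  obtain ⟨v, hv, hv0⟩ := Matrix.exists_mulVec_eq_zero_iff.2 hdet
  have e : v 0 • w + v 1 • p = 0 := by
    funext i
    have := congrFun hv0 i
    simp only [mulVec, dotProduct, Fin.sum_univ_two, colm, Matrix.of_apply, Pi.zero_apply] at this
    simp only [Pi.add_apply, Pi.smul_apply, smul_eq_mul, Pi.zero_apply]
    simp at this
    linear_combination this
  by_cases h1 : v 1 = 0
  · rw [h1, zero_smul, add_zero, smul_eq_zero] at e
    rcases e with e | e
    · apply hv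
      funext i
      fin_cases i
      · exact e
      · exact h1
    · exact hw e
  · apply h (-(v 0) / v 1)
    have e2 : v 1 • p = -(v 0) • w := by
      rw [neg_smul]
      exact eq_neg_of_add_eq_zero_right e
    rw [div_eq_mul_inv, mul_comm, mul_smul, ← e2, smul_smul, inv_mul_cancel₀ h1, one_smul]

theorem exists_w {a b : ℚ} {x y : M2} (h : QB a b x y) (r s z : ℚ)
    (hn : ¬ (r = 0 ∧ s = 0 ∧ z = 0)) (hz : z ^ 2 = a * r ^ 2 + b * s ^ 2) :
    ∃ w : Fin 2 → ℂ, w ≠ 0 ∧ (r : ℂ) • (x *ᵥ w) + (s : ℂ) • (y *ᵥ w) = (z : ℂ) • w := by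
  set u : M2 := (r : ℂ) • x + (s : ℂ) • y with hu
  have hzc : (z : ℂ) ^ 2 = a * r ^ 2 + b * s ^ 2 := by exact_mod_cast hz
  have huu : u * u = ((z : ℂ) ^ 2) • (1 : M2) := by
    rw [hu, mul_add, add_mul, add_mul, smul_mul_smul_comm, smul_mul_smul_comm, smul_mul_smul_comm,
      smul_mul_smul_comm, h.hx, h.hy, h.hxy, hzc]
    module
  have hgen : ∀ U : M2, U * U = ((z : ℂ) ^ 2) • (1 : M2) →
      ((z : ℂ) • (1 : M2) - U) * ((z : ℂ) • (1 : M2) + U) = 0 := by
    intro U hU
    have e1 : ((z : ℂ) • (1 : M2) - U) * ((z : ℂ) • (1 : M2) + U) =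
        ((z : ℂ) ^ 2) • (1 : M2) - U * U := by
      rw [sub_mul, mul_add, mul_add, smul_mul_smul_comm, one_mul, smul_mul_assoc, one_mul,
        mul_smul_comm, mul_one]
      module
    rw [e1, hU, sub_self]
  have hprod : ((z : ℂ) • (1 : M2) - u) * ((z : ℂ) • (1 : M2) + u) = 0 := hgen u huu
  have hdet : ((z : ℂ) • (1 : M2) - u).det = 0 := by
    by_contra hd
    have h0 : (z : ℂ) • (1 : M2) + u = 0 := by
      have hi : IsUnit ((z : ℂ) • (1 : M2) - u).det := isUnit_iff_ne_zero.2 hd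
      have := congrArg (fun m => ((z : ℂ) • (1 : M2) - u)⁻¹ * m) hprod
      simp only [← Matrix.mul_assoc, Matrix.nonsing_inv_mul _ hi, Matrix.one_mul,
        Matrix.mul_zero] at this
      exact this
    have hus : u = (-(z : ℂ)) • (1 : M2) := by
      rw [neg_smul]
      exact eq_neg_of_add_eq_zero_right h0
    have hcx : u * x = x * u := by rw [hus]; simp
    have hcy : u * y = y * u := by rw [hus]; simp
    have ha : (a : ℂ) ≠ 0 := by exact_mod_cast h.ha
    have hb : (b : ℂ) ≠ 0 := by exact_mod_cast h.hb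
    have hyx0 : y * x ≠ 0 := by
      intro e
      have e2 : y * (y * x) * x = 0 := by rw [e]; simp
      have e3 : y * (y * x) * x = ((b : ℂ) * a) • (1 : M2) := by
        rw [← Matrix.mul_assoc y y x, h.hy, Matrix.mul_assoc, h.hx, smul_mul_smul_comm, one_mul]
      rw [e3] at e2
      have := congrFun (congrFun e2 0) 0
      simp at this
      rcases this with h5 | h5
      · exact h.hb (by exact_mod_cast h5)
      · exact h.ha (by exact_mod_cast h5)
    have hs : s = 0 := by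
      have e1 : (2 * (s : ℂ)) • (y * x) = 0 := by
        have e2 : u * x - x * u = 0 := by rw [hcx, sub_self]
        rw [hu, add_mul, mul_add, smul_mul_assoc, smul_mul_assoc, mul_smul_comm, mul_smul_comm,
          h.hxy] at e2
        rw [← e2]
        module
      rw [smul_eq_zero] at e1
      rcases e1 with e1 | e1
      · have : (s : ℂ) = 0 := by simpa using e1
        exact_mod_cast this
      · exact absurd e1 hyx0
    have hr : r = 0 := by
      have e1 : (2 * (r : ℂ)) • (y * x) = 0 := by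
        have e2 : y * u - u * y = 0 := by rw [hcy, sub_self]
        rw [hu, add_mul, mul_add, smul_mul_assoc, smul_mul_assoc, mul_smul_comm, mul_smul_comm,
          h.hxy] at e2
        rw [← e2]
        module
      rw [smul_eq_zero] at e1
      rcases e1 with e1 | e1
      · have : (r : ℂ) = 0 := by simpa using e1
        exact_mod_cast this
      · exact absurd e1 hyx0
    apply hn
    refine ⟨hr, hs, ?_⟩
    rw [hr, hs] at hz
    simpa using hz
  obtain ⟨w, hw, hw0⟩ := Matrix.exists_mulVec_eq_zero_iff.2 hdet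
  refine ⟨w, hw, ?_⟩
  rw [Matrix.sub_mulVec, smul_mulVec, one_mulVec, hu, Matrix.add_mulVec, smul_mulVec,
    smul_mulVec] at hw0
  exact (sub_eq_zero.1 hw0).symm

theorem piece : S_SPL := by
  intro a b x y h r s z hn hz
  obtain ⟨w, hw, hw1⟩ := exists_w h r s z hn hz
  by_cases hs : s = 0
  · have hr : r ≠ 0 := by
      intro hr
      apply hn
      refine ⟨hr, hs, ?_⟩
      rw [hr, hs] at hz
      simpa using hz
    have hrc : (r : ℂ) ≠ 0 := by exact_mod_cast hr
    have hxw : x *ᵥ w = ((z : ℂ) / r) • w := by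
      rw [hs, Rat.cast_zero, zero_smul, add_zero] at hw1
      rw [div_eq_mul_inv, mul_comm, mul_smul, ← hw1, smul_smul, inv_mul_cancel₀ hrc, one_smul]
    have hd : (colm w (y *ᵥ w)).det ≠ 0 := det_colm w _ hw fun c hc => hw (noeig h w _ c hxw hc)
    have hxyw : x *ᵥ (y *ᵥ w) = -((z : ℂ) / r) • (y *ᵥ w) := by
      rw [mulVec_mulVec, h.hxy, neg_mulVec, ← mulVec_mulVec, hxw, mulVec_smul, neg_smul]
    have hyyw : y *ᵥ (y *ᵥ w) = (b : ℂ) • w := by
      rw [mulVec_mulVec, h.hy, smul_mulVec, one_mulVec]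
    refine key x y _ !![z / r, 0; 0, -(z / r)] !![0, b; 1, 0] hd (mulA _ _ _ _ ?_ ?_)
      (mulA _ _ _ _ ?_ ?_)
    · rw [hxw]; simp
    · rw [hxyw]; simp
    · simp
    · rw [hyyw]; simp
  · have hsc : (s : ℂ) ≠ 0 := by exact_mod_cast hs
    have hyw : y *ᵥ w = ((z : ℂ) / s) • w + (-(r : ℂ) / s) • (x *ᵥ w) := by
      have e : (s : ℂ) • (y *ᵥ w) = (z : ℂ) • w - (r : ℂ) • (x *ᵥ w) := by
        rw [← hw1]; module
      have e2 : y *ᵥ w = (s : ℂ)⁻¹ • ((s : ℂ) • (y *ᵥ w)) := by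
        rw [smul_smul, inv_mul_cancel₀ hsc, one_smul]
      rw [e2, e, smul_sub, smul_smul, smul_smul]
      module
    have hd : (colm w (x *ᵥ w)).det ≠ 0 := by
      refine det_colm w _ hw fun c hc => hw (noeig h w c ((z : ℂ) / s + (-(r : ℂ) / s) * c) hc ?_)
      rw [hyw, hc]
      module
    have hxxw : x *ᵥ (x *ᵥ w) = (a : ℂ) • w := by
      rw [mulVec_mulVec, h.hx, smul_mulVec, one_mulVec]
    have hyxw : y *ᵥ (x *ᵥ w) = ((r : ℂ) * a / s) • w + (-((z : ℂ) / s)) • (x *ᵥ w) := by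
      have e : y * x = -(x * y) := by rw [h.hxy, neg_neg]
      rw [mulVec_mulVec, e, neg_mulVec, ← mulVec_mulVec, hyw, mulVec_add, mulVec_smul, mulVec_smul,
        hxxw]
      module
    refine key x y _ !![0, a; 1, 0] !![z / s, r * a / s; -r / s, -(z / s)] hd (mulA _ _ _ _ ?_ ?_)
      (mulA _ _ _ _ ?_ ?_)
    · simp
    · rw [hxxw]; simp
    · rw [hyw]; simp
    · rw [hyxw]; simp

end Pool.Agent.R661.SUSPL
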