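import Mathlib

/-! Homogenized simplicial chain complexes of monomial labelings and the Scarf complex. -/

set_option autoImplicit false

namespace Pool.Agent.R661.Scarf

open Finset

section General
universe u v w
variable {X : Type v} {V : Type w}

/-- The label of a face: the exponent vector of the least common multiple of the monomials
`x ^ (m v)`, `v ∈ σ`. -/
noncomputable def label (m : V → X →₀ ℕ) (σ : Finset V) : X →₀ ℕ := σ.sup m

/-- The Scarf complex: the faces of the Taylor simplex whose label is the label of no other face. -/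
def scarf (m : V → X →₀ ℕ) : Set (Finset V) :=
  {σ | ∀ τ : Finset V, label m τ = label m σ → τ = σ}

variable [LinearOrder V]

/-- The differential of the homogenized simplicial chain complex:
`e_σ ↦ ∑_{v ∈ σ} (-1) ^ #{w ∈ σ | w < v} (m_σ / m_{σ ∖ v}) e_{σ ∖ v}`. -/
noncomputable def bdry (k : Type u) [Field k] (m : V → X →₀ ℕ) :
    (Finset V →₀ MvPolynomial X k) →ₗ[MvPolynomial X k] (Finset V →₀ MvPolynomial X k) :=
  Finsupp.linearCombination (MvPolynomial X k) (fun σ => ∑ v ∈ σ,
    Finsupp.single (σ.erase v) ((-1) ^ (σ.filter (fun w => w < v)).card *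
      MvPolynomial.monomial (label m σ - label m (σ.erase v)) (1 : k)))

/-- The simplicial complex `Δ` supports a free resolution of the ideal `I` generated by the
monomials `x ^ (m v)`: the homogenized chain complex of `Δ` (free on the faces with `n` elements in
homological degree `n - 1`), augmented by `e_{v} ↦ x ^ (m v)` onto `I`, is exact. -/
def SupportsResolution (k : Type u) [Field k] (m : V → X →₀ ℕ) (Δ : Set (Finset V)) : Prop :=
  (∀ n : ℕ, 1 ≤ n → ∀ c : Finset V →₀ MvPolynomial X k,
    (∀ σ ∈ c.support, σ ∈ Δ ∧ σ.card = n) → bdry k m c = 0 →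
      ∃ b : Finset V →₀ MvPolynomial X k,
        (∀ σ ∈ b.support, σ ∈ Δ ∧ σ.card = n + 1) ∧ bdry k m b = c) ∧
  ∀ f : MvPolynomial X k,
    f ∈ Ideal.span (Set.range fun v => MvPolynomial.monomial (m v) (1 : k)) ↔
      ∃ c : Finset V →₀ MvPolynomial X k, (∀ σ ∈ c.support, σ ∈ Δ ∧ σ.card = 1) ∧
        bdry k m c = Finsupp.single ∅ f

variable {k : Type u} [Field k] {m : V → X →₀ ℕ}

omit [LinearOrder V] in
theorem label_mono {σ τ : Finset V} (h : σ ⊆ τ) : label m σ ≤ label m τ := Finset.sup_mono h

/-- The homogenization of a face in multidegree `M`. -/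
noncomputable def HH (k : Type u) [Field k] (m : V → X →₀ ℕ) (M : X →₀ ℕ) (σ : Finset V) :
    Finset V →₀ MvPolynomial X k :=
  Finsupp.single σ (MvPolynomial.monomial (M - label m σ) (1 : k))

theorem bdry_HH (M : X →₀ ℕ) (σ : Finset V) (hσ : label m σ ≤ M) :
    bdry k m (HH k m M σ) =
      ∑ v ∈ σ, ((-1) ^ (σ.filter (fun w => w < v)).card : MvPolynomial X k) •
        HH k m M (σ.erase v) := by
  unfold bdry HH
  rw [Finsupp.linearCombination_single, Finset.smul_sum]
  apply Finset.sum_congr rfl
  intro v _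
  rw [Finsupp.smul_single, Finsupp.smul_single, smul_eq_mul, smul_eq_mul]
  congr 1
  have h1 : label m (σ.erase v) ≤ label m σ := label_mono (Finset.erase_subset _ _)
  have h2 : MvPolynomial.monomial (M - label m σ) (1 : k) *
      MvPolynomial.monomial (label m σ - label m (σ.erase v)) (1 : k) =
      MvPolynomial.monomial (M - label m (σ.erase v)) (1 : k) := by
    rw [MvPolynomial.monomial_mul, one_mul]
    congr 1
    congr 1
    ext x
    have a1 := h1 x
    have a2 := hσ x
    simp only [Finsupp.coe_add, Finsupp.coe_tsub, Pi.add_apply, Pi.sub_apply]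
    omega
  rw [← h2]
  ring

theorem bdry_tri (M : X →₀ ℕ) (x y z : V) (hxy : x < y) (hyz : y < z)
    (hσ : label m {x, y, z} ≤ M) :
    bdry k m (HH k m M {x, y, z}) = HH k m M {y, z} - HH k m M {x, z} + HH k m M {x, y} := by
  have hxz : x < z := hxy.trans hyz
  rw [bdry_HH M _ hσ]
  have hx : x ∉ ({y, z} : Finset V) := by
    simp only [mem_insert, mem_singleton, not_or]; exact ⟨hxy.ne, hxz.ne⟩
  have hy : y ∉ ({z} : Finset V) := by simp only [mem_singleton]; exact hyz.ne
  rw [Finset.sum_insert hx, Finset.sum_insert hy, Finset.sum_singleton]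
  have e1 : ({x, y, z} : Finset V).erase x = {y, z} := Finset.erase_insert hx
  have e2 : ({x, y, z} : Finset V).erase y = {x, z} := by
    ext w; simp only [mem_erase, mem_insert, mem_singleton]
    constructor
    · rintro ⟨h1, h | h | h⟩
      · exact Or.inl h
      · exact absurd h h1
      · exact Or.inr h
    · rintro (h | h)
      · exact ⟨by rw [h]; exact hxy.ne, Or.inl h⟩
      · exact ⟨by rw [h]; exact hyz.ne', Or.inr (Or.inr h)⟩
  have e3 : ({x, y, z} : Finset V).erase z = {x, y} := by
    ext w; simp only [mem_erase, mem_insert, mem_singleton]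
    constructor
    · rintro ⟨h1, h | h | h⟩
      · exact Or.inl h
      · exact Or.inr h
      · exact absurd h h1
    · rintro (h | h)
      · exact ⟨by rw [h]; exact hxz.ne, Or.inl h⟩
      · exact ⟨by rw [h]; exact hyz.ne, Or.inr (Or.inl h)⟩
  have f1 : ({x, y, z} : Finset V).filter (fun w => w < x) = ∅ := by
    ext w; simp only [mem_filter, mem_insert, mem_singleton, notMem_empty, iff_false, not_and]
    rintro (h | h | h)
    · rw [h]; exact lt_irrefl _
    · rw [h]; exact hxy.le.not_gt
    · rw [h]; exact hxz.le.not_gt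
  have f2 : ({x, y, z} : Finset V).filter (fun w => w < y) = {x} := by
    ext w; simp only [mem_filter, mem_insert, mem_singleton]
    constructor
    · rintro ⟨h | h | h, h1⟩
      · exact h
      · rw [h] at h1; exact absurd h1 (lt_irrefl _)
      · rw [h] at h1; exact absurd h1 hyz.le.not_gt
    · rintro rfl; exact ⟨Or.inl rfl, hxy⟩
  have f3 : ({x, y, z} : Finset V).filter (fun w => w < z) = {x, y} := by
    ext w; simp only [mem_filter, mem_insert, mem_singleton]
    constructor
    · rintro ⟨h | h | h, h1⟩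
      · exact Or.inl h
      · exact Or.inr h
      · rw [h] at h1; exact absurd h1 (lt_irrefl _)
    · rintro (rfl | rfl)
      · exact ⟨Or.inl rfl, hxz⟩
      · exact ⟨Or.inr (Or.inl rfl), hyz⟩
  rw [e1, e2, e3, f1, f2, f3, Finset.card_empty, Finset.card_singleton,
    Finset.card_pair hxy.ne]
  simp only [pow_zero, one_smul, pow_one, neg_smul, even_two, Even.neg_pow, one_pow]
  abel

/-- The coefficient of a boundary at a face all of whose small cofaces are not in the complex. -/
theorem bdry_coeff_zero (M : X →₀ ℕ) (τ : Finset V) (hτ : label m τ ≤ M)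
    (b : Finset V →₀ MvPolynomial X k)
    (hb : ∀ σ ∈ b.support, ∀ v ∈ σ, σ.erase v = τ → ¬ label m σ ≤ M) :
    MvPolynomial.coeff (M - label m τ) ((bdry k m b) τ) = 0 := by
  unfold bdry
  rw [Finsupp.linearCombination_apply, Finsupp.sum, Finsupp.finsetSum_apply,
    MvPolynomial.coeff_sum]
  apply Finset.sum_eq_zero
  intro σ hσ
  rw [Finsupp.smul_apply, Finsupp.finsetSum_apply, smul_eq_mul, Finset.mul_sum,
    MvPolynomial.coeff_sum]
  apply Finset.sum_eq_zero
  intro v hv
  by_cases h : σ.erase v = τ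
  · have h1 := hb σ hσ v hv h
    rw [h, Finsupp.single_eq_same, ← mul_assoc, MvPolynomial.coeff_mul_monomial', if_neg]
    intro h2
    apply h1
    intro x
    have a1 := h2 x
    have a2 := hτ x
    have a3 := label_mono (m := m) (Finset.erase_subset v σ) x
    rw [h] at a3
    simp only [Finsupp.coe_tsub, Pi.sub_apply] at a1
    omega
  · rw [Finsupp.single_eq_of_ne' h, mul_zero, MvPolynomial.coeff_zero]

/-- Five vertices spanning a two-dimensional sphere of Scarf faces. -/
theorem not_supports (a : Fin 5 → V) (ha : StrictMono a)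
    (h1 : ∀ v, m v ≤ label m (univ.image a) → ∃ j, v = a j)
    (h012 : {a 0, a 1, a 2} ∈ scarf m) (h013 : {a 0, a 1, a 3} ∈ scarf m)
    (h024 : {a 0, a 2, a 4} ∈ scarf m) (h034 : {a 0, a 3, a 4} ∈ scarf m)
    (h123 : {a 1, a 2, a 3} ∈ scarf m) (h234 : {a 2, a 3, a 4} ∈ scarf m)
    (n3 : insert (a 3) {a 0, a 1, a 2} ∉ scarf m) (n4 : insert (a 4) {a 0, a 1, a 2} ∉ scarf m) :
    ¬ SupportsResolution k m (scarf m) := by
  rintro ⟨H, -⟩
  set M := label m (univ.image a) with hM
  have hle : ∀ i j l : Fin 5, label m {a i, a j, a l} ≤ M := by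
    intro i j l
    apply label_mono
    intro x hx
    simp only [mem_insert, mem_singleton] at hx
    rcases hx with rfl | rfl | rfl <;> exact mem_image_of_mem _ (mem_univ _)
  have l01 : a 0 < a 1 := ha (by decide)
  have l12 : a 1 < a 2 := ha (by decide)
  have l23 : a 2 < a 3 := ha (by decide)
  have l34 : a 3 < a 4 := ha (by decide)
  have l13 : a 1 < a 3 := ha (by decide)
  have l24 : a 2 < a 4 := ha (by decide)
  have l02 : a 0 < a 2 := ha (by decide)
  have l03 : a 0 < a 3 := ha (by decide)
  have l04 : a 0 < a 4 := ha (by decide)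
  set c := HH k m M {a 0, a 1, a 2} - HH k m M {a 0, a 1, a 3} + HH k m M {a 0, a 2, a 4}
    - HH k m M {a 0, a 3, a 4} - HH k m M {a 1, a 2, a 3} + HH k m M {a 2, a 3, a 4} with hc
  have hcard : ∀ x y z : V, x < y → y < z → ({x, y, z} : Finset V).card = 3 := by
    intro x y z hxy hyz
    rw [Finset.card_eq_three]
    exact ⟨x, y, z, hxy.ne, (hxy.trans hyz).ne, hyz.ne, rfl⟩
  have hzero : bdry k m c = 0 := by
    rw [hc]
    simp only [map_add, map_sub]
    rw [bdry_tri M _ _ _ l01 l12 (hle _ _ _), bdry_tri M _ _ _ l01 l13 (hle _ _ _),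
      bdry_tri M _ _ _ l02 l24 (hle _ _ _), bdry_tri M _ _ _ l03 l34 (hle _ _ _),
      bdry_tri M _ _ _ l12 l23 (hle _ _ _), bdry_tri M _ _ _ l23 l34 (hle _ _ _)]
    abel
  have hsupp : ∀ σ ∈ c.support, σ ∈ scarf m ∧ σ.card = 3 := by
    intro σ hσ
    by_contra hcon
    apply (Finsupp.mem_support_iff.1 hσ)
    have key : ∀ τ : Finset V, τ ∈ scarf m → τ.card = 3 → HH k m M τ σ = 0 := by
      intro τ h1 h2
      unfold HH
      rw [Finsupp.single_eq_of_ne']
      rintro rfl
      exact hcon ⟨h1, h2⟩
    rw [hc]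
    simp only [Finsupp.add_apply, Finsupp.sub_apply]
    rw [key _ h012 (hcard _ _ _ l01 l12), key _ h013 (hcard _ _ _ l01 l13),
      key _ h024 (hcard _ _ _ l02 l24), key _ h034 (hcard _ _ _ l03 l34),
      key _ h123 (hcard _ _ _ l12 l23), key _ h234 (hcard _ _ _ l23 l34)]
    simp
  obtain ⟨b, hb1, hb2⟩ := H 3 (by norm_num) c hsupp hzero
  have hz := bdry_coeff_zero (k := k) M {a 0, a 1, a 2} (hle 0 1 2) b (by
    intro σ hσ v hv he hle'
    have hσ' : σ = insert v {a 0, a 1, a 2} := by rw [← he, Finset.insert_erase hv]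
    have hvn : v ∉ ({a 0, a 1, a 2} : Finset V) := by
      rw [← he]; exact Finset.notMem_erase v σ
    obtain ⟨j, rfl⟩ := h1 v ((Finset.le_sup (f := m) hv).trans hle')
    have hs := (hb1 σ hσ).1
    rw [hσ'] at hs
    fin_cases j
    · exact hvn (by simp)
    · exact hvn (by simp)
    · exact hvn (by simp)
    · exact n3 hs
    · exact n4 hs)
  rw [hb2] at hz
  have hne : ∀ τ : Finset V, τ ≠ {a 0, a 1, a 2} → HH k m M τ {a 0, a 1, a 2} = 0 := by
    intro τ h
    unfold HH
    rw [Finsupp.single_eq_of_ne' h]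
  have hmem : ∀ (i j l t : Fin 5), t ∈ ({i, j, l} : Finset (Fin 5)) →
      t ∉ ({0, 1, 2} : Finset (Fin 5)) → ({a i, a j, a l} : Finset V) ≠ {a 0, a 1, a 2} := by
    intro i j l t h1 h2 heq
    have h3 : a t ∈ ({a i, a j, a l} : Finset V) := by
      simp only [mem_insert, mem_singleton] at h1 ⊢
      rcases h1 with rfl | rfl | rfl
      · exact Or.inl rfl
      · exact Or.inr (Or.inl rfl)
      · exact Or.inr (Or.inr rfl)
    rw [heq] at h3
    apply h2
    simp only [mem_insert, mem_singleton, ha.injective.eq_iff] at h3 ⊢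
    exact h3
  rw [hc] at hz
  simp only [Finsupp.add_apply, Finsupp.sub_apply] at hz
  rw [hne _ (hmem 0 1 3 3 (by decide) (by decide)), hne _ (hmem 0 2 4 4 (by decide) (by decide)),
    hne _ (hmem 0 3 4 3 (by decide) (by decide)), hne _ (hmem 1 2 3 3 (by decide) (by decide)),
    hne _ (hmem 2 3 4 3 (by decide) (by decide))] at hz
  unfold HH at hz
  rw [Finsupp.single_eq_same] at hz
  simp only [sub_zero, add_zero] at hz
  classical
  rw [MvPolynomial.coeff_monomial, if_pos rfl] at hz
  exact one_ne_zero hz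

end General

end Pool.Agent.R661.Scarf
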