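import Mathlib
import Pool.Agent.R661.ScarfGen

/-! The powers of the extremal ideals. -/

set_option autoImplicit false

namespace Pool.Agent.R661.Scarf

open Finset

/-- The variables `x_A`, `∅ ≠ A ⊆ [q]`. -/
abbrev Var (q : ℕ) : Type := {A : Finset (Fin q) // A.Nonempty}

/-- The exponent vectors `a ∈ ℕ ^ q` with `a_1 + ⋯ + a_q = r`, which index the minimal generators
`ε ^ a` of the power `E_q ^ r` of the extremal ideal. -/
def Vtx (q r : ℕ) : Type := {a : Fin q → ℕ // ∑ i, a i = r}

/-- The exponent vector of `ε_i = ∏_{A ∋ i} x_A`. -/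
noncomputable def epsExp {q : ℕ} (i : Fin q) : Var q →₀ ℕ :=
  ∑ A : Var q, if i ∈ A.1 then Finsupp.single A 1 else 0

/-- The exponent vector of `ε ^ a = ε_1 ^ (a_1) ⋯ ε_q ^ (a_q)`. -/
noncomputable def genExp {q r : ℕ} (a : Vtx q r) : Var q →₀ ℕ := ∑ i, a.1 i • epsExp i

/-- The lexicographic order on the exponent vectors (used for the signs). -/
noncomputable instance (q r : ℕ) : LinearOrder (Vtx q r) :=
  LinearOrder.lift' (fun a : Vtx q r => toLex a.1) (fun _ _ h => Subtype.ext (toLex.injective h))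

theorem lt_of_first {q r : ℕ} (a b : Vtx q r) (i : Fin q) (h1 : ∀ j, j < i → a.1 j = b.1 j)
    (h2 : a.1 i < b.1 i) : a < b := by
  change toLex a.1 < toLex b.1
  exact ⟨i, h1, h2⟩

theorem epsExp_apply {q : ℕ} (i : Fin q) (A : Var q) :
    epsExp i A = if i ∈ A.1 then 1 else 0 := by
  unfold epsExp
  rw [Finsupp.finsetSum_apply]
  rw [Finset.sum_eq_single A]
  · split_ifs <;> simp
  · intro B _ hB
    split_ifs
    · rw [Finsupp.single_eq_of_ne' hB]
    · rfl
  · intro h; exact absurd (mem_univ A) h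

theorem genExp_apply {q r : ℕ} (a : Vtx q r) (A : Var q) : genExp a A = ∑ i ∈ A.1, a.1 i := by
  unfold genExp
  rw [Finsupp.finsetSum_apply]
  simp only [Finsupp.smul_apply, epsExp_apply, smul_eq_mul, mul_ite, mul_one, mul_zero]
  rw [← Finset.sum_filter]
  apply Finset.sum_congr _ (fun _ _ => rfl)
  ext i; simp

theorem label_apply {q r : ℕ} (σ : Finset (Vtx q r)) (A : Var q) :
    label genExp σ A = σ.sup (fun a => ∑ i ∈ A.1, a.1 i) := by
  unfold label
  induction σ using Finset.induction_on with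
  | empty => rfl
  | insert a s _ ih =>
    rw [Finset.sup_insert, Finset.sup_insert, Finsupp.sup_apply, ih, genExp_apply]

/-- The five basic exponent vectors. -/
def bb : Fin 5 → Fin 6 → ℕ :=
  ![![0, 1, 0, 0, 3, 1], ![1, 0, 1, 1, 2, 0], ![1, 0, 1, 2, 1, 0], ![1, 0, 2, 1, 1, 0],
    ![1, 0, 2, 2, 0, 0]]

section
variable {q r : ℕ} (hq : 6 ≤ q) (hr : 5 ≤ r)

/-- The exponent vectors for general `q` and `r`. -/
def aa (q r : ℕ) (j : Fin 5) (i : Fin q) : ℕ :=
  (if h : i.1 < 6 then bb j ⟨i.1, h⟩ else 0) + (if i.1 = 0 then r - 5 else 0)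

include hq in
theorem sum_split (f : Fin q → ℕ) : ∑ i, f i = ∑ i : Fin 6, f (Fin.castLE hq i) +
    ∑ i ∈ univ.filter (fun i : Fin q => 6 ≤ i.1), f i := by
  rw [← Finset.sum_filter_add_sum_filter_not univ (fun i : Fin q => i.1 < 6)]
  congr 1
  · symm
    apply Finset.sum_bij (fun (i : Fin 6) _ => Fin.castLE hq i)
    · intro i _
      simp
    · intro i _ j _ h
      exact Fin.castLE_injective hq h
    · intro i hi
      simp only [mem_filter, mem_univ, true_and] at hi
      exact ⟨⟨i.1, hi⟩, mem_univ _, rfl⟩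
    · intro i _; rfl
  · apply Finset.sum_congr _ (fun _ _ => rfl)
    ext i; simp

theorem aa_cast (j : Fin 5) (i : Fin 6) :
    aa q r j (Fin.castLE hq i) = bb j i + (if i = 0 then r - 5 else 0) := by
  unfold aa
  have : (Fin.castLE hq i).1 = i.1 := rfl
  rw [dif_pos (by rw [this]; exact i.2)]
  congr 1
  by_cases h : i = 0
  · simp [h]
  · rw [if_neg h, if_neg]
    rw [this]
    intro h'
    exact h (Fin.ext h')

theorem aa_ge (j : Fin 5) (i : Fin q) (hi : 6 ≤ i.1) : aa q r j i = 0 := by
  unfold aa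
  rw [dif_neg (by omega), if_neg (by omega)]

include hq hr in
theorem aa_sum (j : Fin 5) : ∑ i, aa q r j i = r := by
  rw [sum_split hq, Finset.sum_eq_zero (s := univ.filter (fun i : Fin q => 6 ≤ i.1))]
  · simp only [aa_cast]
    rw [Finset.sum_add_distrib]
    have h1 : ∀ j, ∑ i, bb j i = 5 := by decide
    rw [h1, Finset.sum_ite_eq' univ (0 : Fin 6), if_pos (mem_univ _)]
    omega
  · intro i hi
    exact aa_ge j i (mem_filter.1 hi).2

/-- The five vertices. -/
def va (j : Fin 5) : Vtx q r := ⟨aa q r j, aa_sum hq hr j⟩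

/-- The part of a set of indices below six. -/
def low (hq : 6 ≤ q) (A : Finset (Fin q)) : Finset (Fin 6) :=
  univ.filter (fun i => Fin.castLE hq i ∈ A)

theorem sum_aa (j : Fin 5) (A : Finset (Fin q)) :
    ∑ i ∈ A, aa q r j i = ∑ i ∈ low hq A, bb j i +
      (if (0 : Fin 6) ∈ low hq A then r - 5 else 0) := by
  have h1 : ∑ i ∈ A, aa q r j i = ∑ i, if i ∈ A then aa q r j i else 0 := by
    rw [← Finset.sum_filter]
    apply Finset.sum_congr _ (fun _ _ => rfl)
    ext i; simp
  rw [h1, sum_split hq, Finset.sum_eq_zero (s := univ.filter (fun i : Fin q => 6 ≤ i.1)),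
    add_zero]
  · simp only [aa_cast]
    have h2 : ∀ i : Fin 6, (if Fin.castLE hq i ∈ A then
        bb j i + (if i = 0 then r - 5 else 0) else 0) =
        (if i ∈ low hq A then bb j i + (if i = 0 then r - 5 else 0) else 0) := by
      intro i
      unfold low
      simp only [mem_filter, mem_univ, true_and]
    simp only [h2]
    rw [← Finset.sum_filter]
    have h3 : univ.filter (fun i => i ∈ low hq A) = low hq A := by ext i; simp
    rw [h3, Finset.sum_add_distrib, Finset.sum_ite_eq' (low hq A) (0 : Fin 6)]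
  · intro i hi
    rw [aa_ge j i (mem_filter.1 hi).2]
    simp

/-- Basic support function. -/
def LL (J : Finset (Fin 5)) (A : Finset (Fin 6)) : ℕ := J.sup (fun j => ∑ i ∈ A, bb j i)

theorem sup_add_const {ι : Type*} (s : Finset ι) (hs : s.Nonempty) (f : ι → ℕ) (c : ℕ) :
    s.sup (fun i => f i + c) = s.sup f + c := by
  apply le_antisymm
  · apply Finset.sup_le
    intro i hi
    exact Nat.add_le_add_right (Finset.le_sup (f := f) hi) c
  · obtain ⟨i, hi, h⟩ := Finset.exists_mem_eq_sup s hs f
    rw [h]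
    exact Finset.le_sup (f := fun i => f i + c) hi

theorem label_va (J : Finset (Fin 5)) (hJ : J.Nonempty) (A : Var q) :
    label genExp (J.image (va hq hr)) A = LL J (low hq A.1) +
      (if (0 : Fin 6) ∈ low hq A.1 then r - 5 else 0) := by
  rw [label_apply, Finset.sup_image]
  unfold LL
  rw [← sup_add_const J hJ]
  congr 1
  funext j
  exact sum_aa hq j A.1

/-- Lifting a set of indices. -/
def lift (hq : 6 ≤ q) (A : Finset (Fin 6)) : Finset (Fin q) := A.map (Fin.castLEEmb hq)

theorem low_lift (A : Finset (Fin 6)) : low hq (lift hq A) = A := by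
  ext i
  unfold low lift
  simp only [mem_filter, mem_univ, true_and, mem_map, Fin.castLEEmb_apply]
  constructor
  · rintro ⟨j, hj, h⟩
    rwa [← Fin.castLE_injective hq h]
  · intro h; exact ⟨i, h, rfl⟩

/-- The labels of the faces determine the basic support functions. -/
theorem LL_eq (I J : Finset (Fin 5)) (hI : I.Nonempty) (hJ : J.Nonempty)
    (h : label genExp (I.image (va hq hr)) = label genExp (J.image (va hq hr)))
    (A : Finset (Fin 6)) : LL I A = LL J A := by
  by_cases hA : A.Nonempty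
  · have h1 := DFunLike.congr_fun h (⟨lift hq A, by
      unfold lift; rw [Finset.map_nonempty]; exact hA⟩ : Var q)
    rw [label_va hq hr I hI, label_va hq hr J hJ] at h1
    simp only [low_lift] at h1
    omega
  · rw [Finset.not_nonempty_iff_eq_empty] at hA
    subst hA
    unfold LL
    apply le_antisymm <;> apply Finset.sup_le <;> intro i _ <;> simp

theorem base_cases (x0 x1 x2 x3 x4 x5 r : ℕ) (hr : 5 ≤ r)
    (hsum : x0 + x1 + x2 + x3 + x4 + x5 = r)
    (c0 : x1 + (x2 + (x3 + (x4 + x5))) ≤ 5)
    (c1 : x0 + x1 ≤ 1 + (r - 5)) (c2 : x1 + (x2 + x5) ≤ 2) (c3 : x1 + (x3 + x5) ≤ 2)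
    (c4 : x2 + (x3 + (x4 + x5)) ≤ 4) (c5 : x0 + (x2 + (x4 + x5)) ≤ 4 + (r - 5))
    (c6 : x3 + x4 ≤ 3) (c7 : x0 + x5 ≤ 1 + (r - 5)) (c8 : x1 + (x2 + (x3 + x4)) ≤ 4) :
    ∃ j : Fin 5, x0 = bb j 0 + (r - 5) ∧ x1 = bb j 1 ∧ x2 = bb j 2 ∧ x3 = bb j 3 ∧
      x4 = bb j 4 ∧ x5 = bb j 5 := by
  by_cases h : x0 = r - 5
  · refine ⟨0, ?_, ?_, ?_, ?_, ?_, ?_⟩
    · show x0 = 0 + (r - 5); omega
    · show x1 = 1; omega
    · show x2 = 0; omega
    · show x3 = 0; omega
    · show x4 = 3; omega
    · show x5 = 1; omega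
  · have h0 : x0 = 1 + (r - 5) := by omega
    have h2 : x2 = 1 ∨ x2 = 2 := by omega
    have h3 : x3 = 1 ∨ x3 = 2 := by omega
    rcases h2 with h2 | h2 <;> rcases h3 with h3 | h3
    · refine ⟨1, h0, ?_, h2, h3, ?_, ?_⟩
      · show x1 = 0; omega
      · show x4 = 2; omega
      · show x5 = 0; omega
    · refine ⟨2, h0, ?_, h2, h3, ?_, ?_⟩
      · show x1 = 0; omega
      · show x4 = 1; omega
      · show x5 = 0; omega
    · refine ⟨3, h0, ?_, h2, h3, ?_, ?_⟩
      · show x1 = 0; omega
      · show x4 = 1; omega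
      · show x5 = 0; omega
    · refine ⟨4, h0, ?_, h2, h3, ?_, ?_⟩
      · show x1 = 0; omega
      · show x4 = 0; omega
      · show x5 = 0; omega

/-- The support of a vertex inside the five points. -/
theorem closure_univ (v : Vtx q r) (hv : genExp v ≤ label genExp (univ.image (va hq hr))) :
    ∃ j, v = va hq hr j := by
  have hc : ∀ A : Var q, ∑ i ∈ A.1, v.1 i ≤ LL univ (low hq A.1) +
      (if (0 : Fin 6) ∈ low hq A.1 then r - 5 else 0) := by
    intro A
    rw [← label_va hq hr univ univ_nonempty, ← genExp_apply]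
    exact hv A
  have hhigh : ∀ i : Fin q, 6 ≤ i.1 → v.1 i = 0 := by
    intro i hi
    have := hc ⟨{i}, by simp⟩
    have h1 : low hq ({i} : Finset (Fin q)) = ∅ := by
      ext j
      unfold low
      simp only [mem_filter, mem_univ, true_and, mem_singleton, notMem_empty, iff_false]
      intro h
      have := congrArg Fin.val h
      simp at this
      omega
    simp only [h1, notMem_empty, if_false, sum_singleton] at this
    have h2 : LL univ ∅ = 0 := by decide
    omega
  have hlow : ∀ A : Finset (Fin 6), A.Nonempty → ∑ i ∈ A, v.1 (Fin.castLE hq i) ≤ LL univ A +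
      (if (0 : Fin 6) ∈ A then r - 5 else 0) := by
    intro A hA
    have := hc ⟨lift hq A, by unfold lift; rw [Finset.map_nonempty]; exact hA⟩
    simp only [low_lift] at this
    unfold lift at this
    rw [Finset.sum_map] at this
    exact this
  have hsum : ∑ i : Fin 6, v.1 (Fin.castLE hq i) = r := by
    have := v.2
    rw [sum_split hq, Finset.sum_eq_zero (s := univ.filter (fun i : Fin q => 6 ≤ i.1)),
      add_zero] at this
    · exact this
    · intro i hi
      exact hhigh i (mem_filter.1 hi).2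
  have c0 := hlow {1, 2, 3, 4, 5} (by decide)
  have c1 := hlow {0, 1} (by decide)
  have c2 := hlow {1, 2, 5} (by decide)
  have c3 := hlow {1, 3, 5} (by decide)
  have c4 := hlow {2, 3, 4, 5} (by decide)
  have c5 := hlow {0, 2, 4, 5} (by decide)
  have c6 := hlow {3, 4} (by decide)
  have c7 := hlow {0, 5} (by decide)
  have c8 := hlow {1, 2, 3, 4} (by decide)
  have e0 : LL univ {1, 2, 3, 4, 5} = 5 := by decide
  have e1 : LL univ {0, 1} = 1 := by decide
  have e2 : LL univ {1, 2, 5} = 2 := by decide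
  have e3 : LL univ {1, 3, 5} = 2 := by decide
  have e4 : LL univ {2, 3, 4, 5} = 4 := by decide
  have e5 : LL univ {0, 2, 4, 5} = 4 := by decide
  have e6 : LL univ {3, 4} = 3 := by decide
  have e7 : LL univ {0, 5} = 1 := by decide
  have e8 : LL univ {1, 2, 3, 4} = 4 := by decide
  rw [e0] at c0; rw [e1] at c1; rw [e2] at c2; rw [e3] at c3; rw [e4] at c4
  rw [e5] at c5; rw [e6] at c6; rw [e7] at c7; rw [e8] at c8
  rw [Fin.sum_univ_six] at hsum
  simp [Finset.sum_insert] at c0 c1 c2 c3 c4 c5 c6 c7 c8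
  have hval : ∃ j, ∀ i : Fin 6, v.1 (Fin.castLE hq i) = bb j i + (if i = 0 then r - 5 else 0) := by
    obtain ⟨j, b0, b1, b2, b3, b4, b5⟩ := base_cases _ _ _ _ _ _ r hr hsum c0 c1 c2 c3 c4 c5 c6 c7 c8
    refine ⟨j, fun i => ?_⟩
    fin_cases i
    · simpa using b0
    · simpa using b1
    · simpa using b2
    · simpa using b3
    · simpa using b4
    · simpa using b5
  obtain ⟨j, hj⟩ := hval
  refine ⟨j, Subtype.ext (funext fun i => ?_)⟩
  by_cases hi : i.1 < 6
  · have h1 : i = Fin.castLE hq ⟨i.1, hi⟩ := rfl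
    rw [h1, hj]
    exact (aa_cast hq j _).symm
  · rw [hhigh i (by omega)]
    exact (aa_ge j i (by omega)).symm

theorem LL_empty (A : Finset (Fin 6)) : LL ∅ A = 0 := rfl

theorem scarf_of (I : Finset (Fin 5)) (hI : I.Nonempty)
    (D : ∀ J : Finset (Fin 5), (∀ A : Finset (Fin 6), LL J A = LL I A) → J = I) :
    I.image (va hq hr) ∈ scarf (genExp (q := q) (r := r)) := by
  intro τ hτ
  have h1 : ∀ v ∈ τ, ∃ j, v = va hq hr j := by
    intro v hv
    apply closure_univ hq hr
    have h2 : genExp v ≤ label genExp τ := Finset.le_sup (f := genExp) hv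
    rw [hτ] at h2
    refine h2.trans (label_mono (Finset.image_subset_image (Finset.subset_univ _)))
  set J := univ.filter (fun j => va hq hr j ∈ τ) with hJ
  have hτJ : τ = J.image (va hq hr) := by
    ext v
    simp only [mem_image, hJ, mem_filter, mem_univ, true_and]
    constructor
    · intro hv
      obtain ⟨j, rfl⟩ := h1 v hv
      exact ⟨j, hv, rfl⟩
    · rintro ⟨j, hj, rfl⟩; exact hj
  rw [hτJ] at hτ ⊢
  by_cases hne : J.Nonempty
  · rw [D J (LL_eq hq hr J I hne hI hτ)]
  · rw [Finset.not_nonempty_iff_eq_empty] at hne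
    rw [hne] at hτ
    exfalso
    have h2 : ∀ A : Finset (Fin 6), LL ∅ A = LL I A := by
      intro A
      rw [LL_empty]
      by_cases hA : A.Nonempty
      · have h1 := DFunLike.congr_fun hτ (⟨lift hq A, by
          unfold lift; rw [Finset.map_nonempty]; exact hA⟩ : Var q)
        rw [label_va hq hr I hI] at h1
        simp only [low_lift] at h1
        have h3 : label genExp (Finset.image (va hq hr) ∅) (⟨lift hq A, by
          unfold lift; rw [Finset.map_nonempty]; exact hA⟩ : Var q) = 0 := rfl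
        rw [h3] at h1
        omega
      · rw [Finset.not_nonempty_iff_eq_empty] at hA
        subst hA
        unfold LL
        symm
        apply le_antisymm
        · apply Finset.sup_le; intro i _; simp
        · exact Nat.zero_le _
    rw [← D ∅ h2] at hI
    exact Finset.not_nonempty_empty hI

theorem not_scarf_of (I J : Finset (Fin 5)) (hI : I.Nonempty) (hJ : J.Nonempty) (hne : I ≠ J)
    (D : ∀ A : Finset (Fin 6), LL J A = LL I A) (hinj : Function.Injective (va hq hr)) :
    I.image (va hq hr) ∉ scarf (genExp (q := q) (r := r)) := by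
  intro h
  have h1 : label (genExp (q := q) (r := r)) (J.image (va hq hr)) =
      label genExp (I.image (va hq hr)) := by
    ext A
    rw [label_va hq hr J hJ, label_va hq hr I hI, D]
  have h2 := h _ h1
  exact hne (Finset.image_injective hinj h2).symm

set_option maxRecDepth 100000 in
theorem D012 : ∀ J : Finset (Fin 5),
    (∀ A : Finset (Fin 6), LL J A = LL {0, 1, 2} A) → J = {0, 1, 2} := by decide

set_option maxRecDepth 100000 in
theorem D013 : ∀ J : Finset (Fin 5),
    (∀ A : Finset (Fin 6), LL J A = LL {0, 1, 3} A) → J = {0, 1, 3} := by decide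

set_option maxRecDepth 100000 in
theorem D024 : ∀ J : Finset (Fin 5),
    (∀ A : Finset (Fin 6), LL J A = LL {0, 2, 4} A) → J = {0, 2, 4} := by decide

set_option maxRecDepth 100000 in
theorem D034 : ∀ J : Finset (Fin 5),
    (∀ A : Finset (Fin 6), LL J A = LL {0, 3, 4} A) → J = {0, 3, 4} := by decide

set_option maxRecDepth 100000 in
theorem D123 : ∀ J : Finset (Fin 5),
    (∀ A : Finset (Fin 6), LL J A = LL {1, 2, 3} A) → J = {1, 2, 3} := by decide

set_option maxRecDepth 100000 in
theorem D234 : ∀ J : Finset (Fin 5),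
    (∀ A : Finset (Fin 6), LL J A = LL {2, 3, 4} A) → J = {2, 3, 4} := by decide

set_option maxRecDepth 100000 in
theorem N3 : ∀ A : Finset (Fin 6), LL {0, 2, 3} A = LL {3, 0, 1, 2} A := by decide

set_option maxRecDepth 100000 in
theorem N4 : ∀ A : Finset (Fin 6), LL {0, 1, 4} A = LL {4, 0, 1, 2} A := by decide

theorem va_strictMono : StrictMono (va hq hr) := by
  have h : ∀ (j l : Fin 5) (i : Fin 6), (∀ i' : Fin 6, i' < i → bb j i' = bb l i') →
      bb j i < bb l i → va hq hr j < va hq hr l := by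
    intro j l i h1 h2
    apply lt_of_first _ _ (Fin.castLE hq i)
    · intro i' hi'
      have hlt : i'.1 < i.1 := hi'
      have hi6 : i'.1 < 6 := by omega
      have e : i' = Fin.castLE hq ⟨i'.1, hi6⟩ := rfl
      change aa q r j i' = aa q r l i'
      rw [e, aa_cast, aa_cast, h1 ⟨i'.1, hi6⟩ hlt]
    · change aa q r j (Fin.castLE hq i) < aa q r l (Fin.castLE hq i)
      rw [aa_cast, aa_cast]
      omega
  rw [Fin.strictMono_iff_lt_succ]
  intro j
  fin_cases j
  · exact h 0 1 0 (by decide) (by decide)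
  · exact h 1 2 3 (by decide) (by decide)
  · exact h 2 3 2 (by decide) (by decide)
  · exact h 3 4 3 (by decide) (by decide)

/-- For `q ≥ 6`, `r ≥ 5` the Scarf complex of `E_q ^ r` does not support a resolution. -/
theorem main (k : Type*) [Field k] (q r : ℕ) (hq : 6 ≤ q) (hr : 5 ≤ r) :
    ¬ SupportsResolution k (genExp (q := q) (r := r)) (scarf genExp) := by
  have hm := va_strictMono hq hr
  have key := fun (I : Finset (Fin 5)) hI D => scarf_of hq hr I hI D
  refine not_supports (va hq hr) hm (fun v hv => closure_univ hq hr v hv) ?_ ?_ ?_ ?_ ?_ ?_ ?_ ?_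
  · simpa [Finset.image_insert] using key {0, 1, 2} (by decide) D012
  · simpa [Finset.image_insert] using key {0, 1, 3} (by decide) D013
  · simpa [Finset.image_insert] using key {0, 2, 4} (by decide) D024
  · simpa [Finset.image_insert] using key {0, 3, 4} (by decide) D034
  · simpa [Finset.image_insert] using key {1, 2, 3} (by decide) D123
  · simpa [Finset.image_insert] using key {2, 3, 4} (by decide) D234
  · simpa [Finset.image_insert] using not_scarf_of hq hr {3, 0, 1, 2} {0, 2, 3} (by decide)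
      (by decide) (by decide) N3 hm.injective
  · simpa [Finset.image_insert] using not_scarf_of hq hr {4, 0, 1, 2} {0, 1, 4} (by decide)
      (by decide) (by decide) N4 hm.injective

end

end Pool.Agent.R661.Scarf
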